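import Pool.Agent.PF.List

/-!
# The algorithm, on lists
-/

set_option autoImplicit false

namespace Pool.Agent.CBSq

open Pool.Agent.PF

/-- Matrices of Booleans. -/
abbrev Mat := List (List Bool)

/-- Entry. -/
def ad (M : Mat) (i j : ℕ) : Bool := (M.getD i []).getD j false

/-- Closed neighbourhoods. -/
def cl (M : Mat) (i j : ℕ) : Bool := decide (i = j) || ad M i j

/-- The common closed neighbourhood. -/
def co (M : Mat) (v u w : ℕ) : Bool := cl M v w && cl M u w

/-- Equality of Booleans. -/
def beq (a b : Bool) : Bool := (a && b) || (!a && !b)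

@[fun_prop] theorem pf_ad {α : Type} [VEnc α] {M : α → Mat} {i j : α → ℕ} (hM : PF M) (hi : PF i)
    (hj : PF j) : PF (fun x => ad (M x) (i x) (j x)) := by
  unfold ad; fun_prop

@[fun_prop] theorem pf_cl {α : Type} [VEnc α] {M : α → Mat} {i j : α → ℕ} (hM : PF M) (hi : PF i)
    (hj : PF j) : PF (fun x => cl (M x) (i x) (j x)) := by
  unfold cl; fun_prop

@[fun_prop] theorem pf_co {α : Type} [VEnc α] {M : α → Mat} {v u w : α → ℕ} (hM : PF M) (hv : PF v)
    (hu : PF u) (hw : PF w) : PF (fun x => co (M x) (v x) (u x) (w x)) := by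
  unfold co; fun_prop

@[fun_prop] theorem pf_beq {α : Type} [VEnc α] {a b : α → Bool} (ha : PF a) (hb : PF b) :
    PF (fun x => beq (a x) (b x)) := by
  unfold beq; fun_prop

/-- The colour `k` is forced at `z`. -/
def forcedB (M : Mat) (v u : ℕ) (P : List ℕ) (z k : ℕ) : Bool :=
  ((List.range M.length).any fun y => (List.range M.length).any fun x =>
    ad M z y && ad M y x && !(cl M z x) && decide (P.getD y 0 = k) && decide (P.getD x 0 ≠ 0) &&
      decide (P.getD x 0 ≠ k)) ||
  ((List.range M.length).any fun w =>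
    co M v u w && co M v u z && !(cl M z w) && decide (P.getD w 0 ≠ 0) && decide (P.getD w 0 ≠ k))

@[fun_prop] theorem pf_forcedB {α : Type} [VEnc α] {M : α → Mat} {v u : α → ℕ} {P : α → List ℕ}
    {z k : α → ℕ} (hM : PF M) (hv : PF v) (hu : PF u) (hP : PF P) (hz : PF z) (hk : PF k) :
    PF (fun x => forcedB (M x) (v x) (u x) (P x) (z x) (k x)) := by
  unfold forcedB; fun_prop

/-- One round. -/
def stepB (M : Mat) (v u : ℕ) (P : List ℕ) : List ℕ :=
  tab M.length fun z => if P.getD z 0 = 1 then 1 else if P.getD z 0 = 2 then 2 else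
    if forcedB M v u P z 1 = true then 1 else if forcedB M v u P z 2 = true then 2 else 0

@[fun_prop] theorem pf_stepB {α : Type} [VEnc α] {M : α → Mat} {v u : α → ℕ} {P : α → List ℕ}
    (hM : PF M) (hv : PF v) (hu : PF u) (hP : PF P) :
    PF (fun x => stepB (M x) (v x) (u x) (P x)) := by
  unfold stepB; fun_prop

theorem sz_tab_le {γ : Type} [VEnc γ] (f : ℕ → γ) (B : ℕ) (h : ∀ i, sz (f i) ≤ B) (n : ℕ) :
    sz (tab n f) ≤ n * (B + 1) + 1 := by
  unfold tab
  have key : ∀ l : List ℕ, sz (l.map f) ≤ l.length * (B + 1) + 1 := by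
    intro l
    induction l with
    | nil => simp
    | cons a l ih =>
      rw [List.map_cons, sz_cons, List.length_cons]
      have := h a
      nlinarith
  have := key (List.range n)
  rwa [List.length_range] at this

theorem length_le_sz' {γ : Type} [VEnc γ] (l : List γ) : l.length ≤ sz l := by
  induction l with
  | nil => simp
  | cons a l ih => rw [List.length_cons, sz_cons]; omega

theorem sz_stepB_le (M : Mat) (v u : ℕ) (P : List ℕ) : sz (stepB M v u P) ≤ M.length * 6 + 1 := by
  unfold stepB
  refine sz_tab_le _ 5 (fun i => ?_) _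
  split_ifs <;> simp

/-- All the rounds. -/
def closB (M : Mat) (v u : ℕ) (P : List ℕ) : List ℕ := (stepB M v u)^[M.length] P

@[fun_prop] theorem pf_closB {α : Type} [VEnc α] {M : α → Mat} {v u : α → ℕ} {P : α → List ℕ}
    (hM : PF M) (hv : PF v) (hu : PF u) (hP : PF P) :
    PF (fun x => closB (M x) (v x) (u x) (P x)) := by
  unfold closB
  refine PF.iter (f := fun x P => stepB (M x) (v x) (u x) P) (by fun_prop) (by fun_prop) hP ?_
  have h1 : PF fun x => tab ((M x).length) fun _ => (2 : ℕ) := by fun_prop
  obtain ⟨c, hc⟩ := PF.size_le h1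
  refine ⟨c, fun x i _ => le_trans ?_ (hc x)⟩
  rw [Function.iterate_succ_apply']
  refine (sz_stepB_le _ _ _ _).trans ?_
  unfold tab
  have key : ∀ l : List ℕ, l.length * 6 + 1 ≤ sz (l.map fun _ => (2 : ℕ)) := by
    intro l
    induction l with
    | nil => simp
    | cons a l ih => rw [List.map_cons, sz_cons, List.length_cons, sz_nat]; omega
  have := key (List.range (M x).length)
  rwa [List.length_range] at this

/-- The seed. -/
def seedB (M : Mat) (v u p q a b t : ℕ) : List ℕ :=
  tab M.length fun z => if z = v then 1 else if z = u then 2 else if z = p then a else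
    if z = q then b else
    if (co M v u z && (List.range M.length).all fun w => !(co M v u w) || cl M z w) = true then
      (if ((List.range M.length).all fun x => beq (cl M z x) (cl M u x)) = true then t else 1)
    else 0

@[fun_prop] theorem pf_seedB {α : Type} [VEnc α] {M : α → Mat} {v u p q a b t : α → ℕ}
    (hM : PF M) (hv : PF v) (hu : PF u) (hp : PF p) (hq : PF q) (ha : PF a) (hb : PF b)
    (ht : PF t) :
    PF (fun x => seedB (M x) (v x) (u x) (p x) (q x) (a x) (b x) (t x)) := by
  unfold seedB; fun_prop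

/-- One round of the search for the component. -/
def grow (M : Mat) (R : List Bool) : List Bool :=
  tab M.length fun z => R.getD z false || (List.range M.length).any fun y =>
    R.getD y false && ad M y z

@[fun_prop] theorem pf_grow {α : Type} [VEnc α] {M : α → Mat} {R : α → List Bool}
    (hM : PF M) (hR : PF R) : PF (fun x => grow (M x) (R x)) := by
  unfold grow; fun_prop

theorem sz_grow_le (M : Mat) (R : List Bool) : sz (grow M R) ≤ M.length * 4 + 1 := by
  unfold grow
  exact sz_tab_le _ 3 (fun i => sz_bool_le _) _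

/-- The component of `s`. -/
def reachB (M : Mat) (s : ℕ) : List Bool :=
  (grow M)^[M.length] (tab M.length fun z => decide (z = s))

@[fun_prop] theorem pf_reachB {α : Type} [VEnc α] {M : α → Mat} {s : α → ℕ}
    (hM : PF M) (hs : PF s) : PF (fun x => reachB (M x) (s x)) := by
  unfold reachB
  refine PF.iter (f := fun x R => grow (M x) R) (by fun_prop) (by fun_prop) (by fun_prop) ?_
  have h1 : PF fun x => tab ((M x).length) fun _ => (2 : ℕ) := by fun_prop
  obtain ⟨c, hc⟩ := PF.size_le h1
  refine ⟨c, fun x i _ => le_trans ?_ (hc x)⟩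
  rw [Function.iterate_succ_apply']
  refine (sz_grow_le _ _).trans ?_
  unfold tab
  have key : ∀ l : List ℕ, l.length * 4 + 1 ≤ sz (l.map fun _ => (2 : ℕ)) := by
    intro l
    induction l with
    | nil => simp
    | cons a l ih => rw [List.map_cons, sz_cons, List.length_cons, sz_nat]; omega
  have := key (List.range (M x).length)
  rwa [List.length_range] at this

/-- The side of a vertex. -/
def side (P : List ℕ) (z : ℕ) : Bool := decide (P.getD z 0 = 1)

@[fun_prop] theorem pf_side {α : Type} [VEnc α] {P : α → List ℕ} {z : α → ℕ} (hP : PF P)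
    (hz : PF z) : PF (fun x => side (P x) (z x)) := by
  unfold side; fun_prop

/-- The edges between the sides. -/
def cutB (M : Mat) (P : List ℕ) : Mat :=
  tab M.length fun i => tab M.length fun j => ad M i j && !(beq (side P i) (side P j))

@[fun_prop] theorem pf_cutB {α : Type} [VEnc α] {M : α → Mat} {P : α → List ℕ} (hM : PF M)
    (hP : PF P) : PF (fun x => cutB (M x) (P x)) := by
  unfold cutB; fun_prop

/-- The vertices which are kept. -/
def okB (M : Mat) (x₁ x₂ x₃ x₄ z : ℕ) : Bool :=
  decide (z = x₁) || (decide (z = x₄) || (!(ad M z x₂) && !(ad M z x₃)))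

@[fun_prop] theorem pf_okB {α : Type} [VEnc α] {M : α → Mat} {x₁ x₂ x₃ x₄ z : α → ℕ} (hM : PF M)
    (h1 : PF x₁) (h2 : PF x₂) (h3 : PF x₃) (h4 : PF x₄) (hz : PF z) :
    PF (fun x => okB (M x) (x₁ x) (x₂ x) (x₃ x) (x₄ x) (z x)) := by
  unfold okB; fun_prop

/-- The restricted graph. -/
def resB (M : Mat) (x₁ x₂ x₃ x₄ : ℕ) : Mat :=
  tab M.length fun i => tab M.length fun j =>
    ad M i j && (okB M x₁ x₂ x₃ x₄ i && okB M x₁ x₂ x₃ x₄ j)

@[fun_prop] theorem pf_resB {α : Type} [VEnc α] {M : α → Mat} {x₁ x₂ x₃ x₄ : α → ℕ} (hM : PF M)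
    (h1 : PF x₁) (h2 : PF x₂) (h3 : PF x₃) (h4 : PF x₄) :
    PF (fun x => resB (M x) (x₁ x) (x₂ x) (x₃ x) (x₄ x)) := by
  unfold resB; fun_prop

/-- There is a long induced cycle. -/
def longB (H : Mat) (K : List Bool) : Bool :=
  (List.range H.length).any fun x₁ => (List.range H.length).any fun x₂ =>
  (List.range H.length).any fun x₃ => (List.range H.length).any fun x₄ =>
    K.getD x₁ false && ad H x₁ x₂ && ad H x₂ x₃ && ad H x₃ x₄ && !(ad H x₁ x₄) &&
      (reachB (resB H x₁ x₂ x₃ x₄) x₄).getD x₁ false

@[fun_prop] theorem pf_longB {α : Type} [VEnc α] {H : α → Mat} {K : α → List Bool} (hH : PF H)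
    (hK : PF K) : PF (fun x => longB (H x) (K x)) := by
  unfold longB; fun_prop

/-- The pairs on the same side are right. -/
def sqB (M : Mat) (P : List ℕ) (K : List Bool) : Bool :=
  (List.range M.length).all fun a => (List.range M.length).all fun b =>
    !(K.getD a false && K.getD b false && decide (a ≠ b) && beq (side P a) (side P b)) ||
    beq (ad M a b) ((List.range M.length).any fun m =>
      ad M a m && ad M b m && !(beq (side P m) (side P a)))

@[fun_prop] theorem pf_sqB {α : Type} [VEnc α] {M : α → Mat} {P : α → List ℕ} {K : α → List Bool}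
    (hM : PF M) (hP : PF P) (hK : PF K) : PF (fun x => sqB (M x) (P x) (K x)) := by
  unfold sqB; fun_prop

/-- The colouring is good on `K`. -/
def goodB (M : Mat) (P : List ℕ) (K : List Bool) : Bool :=
  sqB M P K && !(longB (cutB M P) K)

@[fun_prop] theorem pf_goodB {α : Type} [VEnc α] {M : α → Mat} {P : α → List ℕ} {K : α → List Bool}
    (hM : PF M) (hP : PF P) (hK : PF K) : PF (fun x => goodB (M x) (P x) (K x)) := by
  unfold goodB; fun_prop

/-- The algorithm. -/
def algB (M : Mat) : Bool :=
  (List.range M.length).all fun v =>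
    !((List.range M.length).any fun x => ad M v x) ||
    (List.range M.length).any fun u => (List.range M.length).any fun p =>
    (List.range M.length).any fun q => [1, 2].any fun a => [1, 2].any fun b => [1, 2].any fun t =>
      goodB M (closB M v u (seedB M v u p q a b t)) (reachB M v)

theorem pf_algB : PF algB := by
  unfold algB; fun_prop

end Pool.Agent.CBSq
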