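import Mathlib

/-!
# Squares of chordal bipartite graphs: definitions, colourings, gluing
-/

set_option autoImplicit false

namespace Pool.Agent.CBSq

open SimpleGraph

variable {V : Type*}

/-- The `k`-th power of `H`: different vertices at distance at most `k`. -/
def power (H : SimpleGraph V) (k : ℕ) : SimpleGraph V where
  Adj u v := u ≠ v ∧ ∃ p : H.Walk u v, p.length ≤ k
  symm := ⟨fun u v h => ⟨h.1.symm, h.2.choose.reverse, by
    rw [Walk.length_reverse]; exact h.2.choose_spec⟩⟩
  loopless := ⟨fun u h => h.1 rfl⟩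

/-- Chordal bipartite: bipartite and no induced cycle of length at least `6`. -/
def IsChordalBipartite (H : SimpleGraph V) : Prop :=
  H.Colorable 2 ∧ ∀ n : ℕ, 6 ≤ n → IsEmpty (cycleGraph n ↪g H)

/-- `G` is the `k`-th power of a chordal bipartite graph. -/
def HasRoot (k : ℕ) (G : SimpleGraph V) : Prop :=
  ∃ H : SimpleGraph V, IsChordalBipartite H ∧ power H k = G

theorem power_two_adj (H : SimpleGraph V) (u v : V) :
    (power H 2).Adj u v ↔ u ≠ v ∧ (H.Adj u v ∨ ∃ m, H.Adj u m ∧ H.Adj m v) := by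
  constructor
  · rintro ⟨hne, p, hp⟩
    refine ⟨hne, ?_⟩
    match p, hp with
    | .nil, _ => exact absurd rfl hne
    | .cons h .nil, _ => exact Or.inl h
    | .cons h (.cons h' .nil), _ => exact Or.inr ⟨_, h, h'⟩
    | .cons _ (.cons _ (.cons _ q)), hp => simp [Walk.length_cons] at hp
  · rintro ⟨hne, h | ⟨m, h, h'⟩⟩
    · exact ⟨hne, .cons h .nil, by simp⟩
    · exact ⟨hne, .cons h (.cons h' .nil), by simp⟩

/-- The edges between the two colour classes. -/
def cut (G : SimpleGraph V) (c : V → Bool) : SimpleGraph V where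
  Adj a b := G.Adj a b ∧ c a ≠ c b
  symm := ⟨fun _ _ h => ⟨h.1.symm, h.2.symm⟩⟩
  loopless := ⟨fun _ h => h.2 rfl⟩

theorem cut_adj (G : SimpleGraph V) (c : V → Bool) (a b : V) :
    (cut G c).Adj a b ↔ G.Adj a b ∧ c a ≠ c b := Iff.rfl

/-- `c` is a good colouring on the set `K`. -/
structure GoodOn (G : SimpleGraph V) (c : V → Bool) (K : V → Prop) : Prop where
  sq : ∀ a b, K a → K b → a ≠ b → c a = c b →
    (G.Adj a b ↔ ∃ m, G.Adj a m ∧ G.Adj b m ∧ c m ≠ c a)
  ch : ∀ n : ℕ, 6 ≤ n → ∀ f : cycleGraph n ↪g cut G c, ¬ ∀ i, K (f i)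

/-- `c` is a good colouring. -/
def Good (G : SimpleGraph V) (c : V → Bool) : Prop := GoodOn G c fun _ => True

theorem cut_colorable (G : SimpleGraph V) (c : V → Bool) : (cut G c).Colorable 2 := by
  have C : (cut G c).Coloring Bool := Coloring.mk c fun {a b} h => h.2
  have := C.colorable
  simpa using this

theorem root_iff (G : SimpleGraph V) :
    (∃ H : SimpleGraph V, IsChordalBipartite H ∧ power H 2 = G) ↔ ∃ c, Good G c := by
  constructor
  · rintro ⟨H, ⟨hcol, hch⟩, rfl⟩
    obtain ⟨C⟩ : Nonempty (H.Coloring Bool) := by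
      obtain ⟨C⟩ := hcol
      exact ⟨Coloring.mk (fun v => decide (C v = 0)) fun {a b} h => by
        have := C.valid h
        intro h2
        apply this
        have h3 : C a = 0 ↔ C b = 0 := by simpa using h2
        omega⟩
    have key : cut (power H 2) C = H := by
      ext a b
      rw [cut_adj, power_two_adj]
      constructor
      · rintro ⟨⟨_, h | ⟨m, h1, h2⟩⟩, hc⟩
        · exact h
        · have e1 := C.valid h1
          have e2 := C.valid h2
          exact absurd (by
            cases ha : C a <;> cases hm : C m <;> cases hb : C b <;> simp_all) hc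
      · intro h
        exact ⟨⟨h.ne, Or.inl h⟩, C.valid h⟩
    refine ⟨C, ⟨fun a b _ _ hne hc => ?_, fun n hn f _ => ?_⟩⟩
    · constructor
      · intro h
        rw [power_two_adj] at h
        obtain ⟨_, h | ⟨m, h1, h2⟩⟩ := h
        · exact absurd hc (C.valid h)
        · refine ⟨m, ?_, ?_, (C.valid h1).symm⟩
          · rw [power_two_adj]; exact ⟨h1.ne, Or.inl h1⟩
          · rw [power_two_adj]; exact ⟨h2.ne.symm, Or.inl h2.symm⟩
      · rintro ⟨m, h1, h2, hm⟩
        have h1' : (cut (power H 2) C).Adj a m := ⟨h1, hm.symm⟩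
        have h2' : (cut (power H 2) C).Adj b m := ⟨h2, fun h => hm (h.symm.trans hc.symm)⟩
        rw [key] at h1' h2'
        rw [power_two_adj]
        exact ⟨hne, Or.inr ⟨m, h1', h2'.symm⟩⟩
    · rw [key] at f
      exact (hch n hn).false f
  · rintro ⟨c, hc⟩
    refine ⟨cut G c, ⟨cut_colorable G c, fun n hn => ⟨fun f => hc.ch n hn f fun _ => trivial⟩⟩, ?_⟩
    ext a b
    rw [power_two_adj]
    constructor
    · rintro ⟨hne, h | ⟨m, h1, h2⟩⟩
      · exact h.1
      · have hab : c a = c b := by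
          have := h1.2
          have := h2.2
          cases ha : c a <;> cases hm : c m <;> cases hb : c b <;> simp_all
        exact (hc.sq a b trivial trivial hne hab).2 ⟨m, h1.1, h2.1.symm, h1.2.symm⟩
    · intro h
      refine ⟨h.ne, ?_⟩
      by_cases hab : c a = c b
      · obtain ⟨m, h1, h2, hm⟩ := (hc.sq a b trivial trivial h.ne hab).1 h
        exact Or.inr ⟨m, ⟨h1, hm.symm⟩, ⟨h2.symm, fun e => hm (e.trans hab.symm)⟩⟩
      · exact Or.inl ⟨h, hab⟩

/-- The component of `s`. -/
def Comp (G : SimpleGraph V) (s : V) (a : V) : Prop := G.Reachable s a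

theorem GoodOn.congr {G : SimpleGraph V} {c d : V → Bool} {K : V → Prop}
    (hK : ∀ a b, K a → G.Adj a b → K b) (h : GoodOn G c K) (hcd : ∀ a, K a → d a = c a) :
    GoodOn G d K := by
  constructor
  · intro a b ha hb hne hab
    rw [hcd a ha, hcd b hb] at hab
    rw [h.sq a b ha hb hne hab]
    constructor
    · rintro ⟨m, h1, h2, h3⟩
      refine ⟨m, h1, h2, ?_⟩
      rw [hcd m (hK a m ha h1), hcd a ha]
      exact h3
    · rintro ⟨m, h1, h2, h3⟩
      refine ⟨m, h1, h2, ?_⟩
      rw [hcd m (hK a m ha h1), hcd a ha] at h3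
      exact h3
  · intro n hn f hf
    refine h.ch n hn ⟨f.toEmbedding, ?_⟩ hf
    intro i j
    rw [← f.map_rel_iff']
    change (cut G c).Adj (f i) (f j) ↔ (cut G d).Adj (f i) (f j)
    rw [cut_adj, cut_adj, hcd _ (hf i), hcd _ (hf j)]

theorem bool_ne_ne {a b d : Bool} (h1 : a ≠ b) (h2 : d ≠ b) : a = d := by
  cases a <;> cases b <;> cases d <;> simp_all

theorem sub_mod_eq {n a b : ℕ} (ha : a < n) (hb : b < n) :
    (n - b + a) % n = if b ≤ a then a - b else n - b + a := by
  split_ifs with h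
  · have : n - b + a = n + (a - b) := by omega
    rw [this, Nat.add_mod_left, Nat.mod_eq_of_lt (by omega)]
  · exact Nat.mod_eq_of_lt (by omega)

/-- Adjacency in a cycle by the numbers of the vertices. -/
theorem cycle_adj_iff {n : ℕ} (hn : 3 ≤ n) (i j : Fin n) : (cycleGraph n).Adj i j ↔
    (j.val = i.val + 1 ∨ i.val = j.val + 1 ∨ (i.val = 0 ∧ j.val + 1 = n) ∨
      (j.val = 0 ∧ i.val + 1 = n)) := by
  rw [cycleGraph_adj', Fin.val_sub, Fin.val_sub, sub_mod_eq i.2 j.2, sub_mod_eq j.2 i.2]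
  have := i.2
  have := j.2
  split_ifs <;> omega

theorem cycle_nb_inj {n : ℕ} (hn : 5 ≤ n) {i j : Fin n}
    (h : ∀ k, (cycleGraph n).Adj i k ↔ (cycleGraph n).Adj j k) : i = j := by
  have h3 : 3 ≤ n := by omega
  have hi := i.2
  have hj := j.2
  obtain ⟨k, hk⟩ : ∃ k : Fin n, k.val = i.val + 1 ∨ (k.val = 0 ∧ i.val + 1 = n) := by
    by_cases h1 : i.val + 1 = n
    · exact ⟨⟨0, by omega⟩, Or.inr ⟨rfl, h1⟩⟩
    · exact ⟨⟨i.val + 1, by omega⟩, Or.inl rfl⟩
  obtain ⟨l, hl⟩ : ∃ l : Fin n, i.val = l.val + 1 ∨ (i.val = 0 ∧ l.val + 1 = n) := by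
    by_cases h1 : i.val = 0
    · exact ⟨⟨n - 1, by omega⟩, Or.inr ⟨h1, show n - 1 + 1 = n by omega⟩⟩
    · exact ⟨⟨i.val - 1, by omega⟩, Or.inl (show i.val = i.val - 1 + 1 by omega)⟩
  have e1 := (h k).1 (by rw [cycle_adj_iff h3]; omega)
  have e2 := (h l).1 (by rw [cycle_adj_iff h3]; omega)
  rw [cycle_adj_iff h3] at e1 e2
  apply Fin.ext
  omega

theorem cycle_reach {G : SimpleGraph V} {c : V → Bool} {n : ℕ} (hn : 6 ≤ n)
    (f : cycleGraph n ↪g cut G c) (i j : Fin n) : G.Reachable (f i) (f j) := by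
  obtain ⟨m, rfl⟩ : ∃ m, n = m + 1 := ⟨n - 1, by omega⟩
  have h1 : (cycleGraph (m + 1)).Reachable i j := cycleGraph_connected.preconnected i j
  have h2 := h1.map f.toHom
  exact Reachable.mono (fun a b (h : (cut G c).Adj a b) => h.1) h2

theorem good_of_forall {G : SimpleGraph V} (h : ∀ s, ∃ c, GoodOn G c (Comp G s)) :
    ∃ c, Good G c := by
  classical
  choose d hd using h
  set r : V → V := fun v => (G.connectedComponentMk v).out with hr
  have hr1 : ∀ v, G.Reachable (r v) v := fun v => by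
    have := (G.connectedComponentMk v).out_eq
    exact ConnectedComponent.exact this
  have hr2 : ∀ a b, G.Reachable a b → r a = r b := fun a b hab => by
    simp only [hr]
    rw [ConnectedComponent.sound hab]
  set c : V → Bool := fun v => d (r v) v with hc
  have hcs : ∀ s a, Comp G (r s) a → c a = d (r s) a := by
    intro s a ha
    have : r a = r s := by
      apply hr2
      exact ha.symm.trans (hr1 s)
    simp only [hc, this]
  have hg : ∀ s, GoodOn G c (Comp G (r s)) := fun s =>
    (hd (r s)).congr (fun a b ha hab => ha.trans hab.reachable) (hcs s)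
  refine ⟨c, ⟨fun a b _ _ hne hab => ?_, fun n hn f _ => ?_⟩⟩
  · by_cases hR : G.Reachable a b
    · exact (hg a).sq a b (hr1 a) ((hr1 a).trans hR) hne hab
    · constructor
      · intro h; exact absurd h.reachable hR
      · rintro ⟨m, h1, h2, _⟩
        exact absurd (h1.reachable.trans h2.symm.reachable) hR
  · have i0 : Fin n := ⟨0, by omega⟩
    exact (hg (f i0)).ch n hn f fun i => (hr1 _).trans (cycle_reach hn f i0 i)

theorem GoodOn.mono {G : SimpleGraph V} {c : V → Bool} {K K' : V → Prop} (h : GoodOn G c K)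
    (hK : ∀ a, K' a → K a) : GoodOn G c K' :=
  ⟨fun a b ha hb => h.sq a b (hK a ha) (hK b hb), fun n hn f hf => h.ch n hn f fun i => hK _ (hf i)⟩

end Pool.Agent.CBSq
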