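import Pool.Agent.CBSq.Basic

/-!
# The local structure of a good colouring
-/

set_option autoImplicit false

namespace Pool.Agent.CBSq

open SimpleGraph

variable {V : Type*} {G : SimpleGraph V} {c : V → Bool}

/-- Closed neighbourhoods. -/
def clo (G : SimpleGraph V) (a b : V) : Prop := a = b ∨ G.Adj a b

theorem clo_symm {a b : V} (h : clo G a b) : clo G b a := by
  rcases h with h | h
  · exact Or.inl h.symm
  · exact Or.inr h.symm

theorem clo_comm {a b : V} : clo G a b ↔ clo G b a := ⟨clo_symm, clo_symm⟩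

theorem clo_self (a : V) : clo G a a := Or.inl rfl

theorem adj_of_clo {a b : V} (h : clo G a b) (hne : a ≠ b) : G.Adj a b := by
  rcases h with h | h
  · exact absurd h hne
  · exact h

theorem clo_of_adj {a b : V} (h : G.Adj a b) : clo G a b := Or.inr h

/-- The common closed neighbourhood. -/
def core (G : SimpleGraph V) (v u w : V) : Prop := clo G v w ∧ clo G u w

/-- Two vertices with the same closed neighbourhood. -/
def twin (G : SimpleGraph V) (u w : V) : Prop := ∀ x, clo G w x ↔ clo G u x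

/-- Only the partition matters. -/
theorem GoodOn.recolour {K : V → Prop} {d : V → Bool} (h : GoodOn G c K)
    (hcd : ∀ a b, c a = c b ↔ d a = d b) : GoodOn G d K := by
  constructor
  · intro a b ha hb hne hab
    rw [h.sq a b ha hb hne ((hcd a b).2 hab)]
    refine exists_congr fun m => and_congr_right fun _ => and_congr_right fun _ => ?_
    rw [ne_eq, ne_eq, hcd m a]
  · intro n hn f hf
    refine h.ch n hn ⟨f.toEmbedding, ?_⟩ hf
    intro i j
    rw [← f.map_rel_iff']
    change (cut G c).Adj (f i) (f j) ↔ (cut G d).Adj (f i) (f j)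
    rw [cut_adj, cut_adj, ne_eq, ne_eq, hcd]

theorem Good.sq (h : Good G c) {a b : V} (hne : a ≠ b) (hab : c a = c b) :
    G.Adj a b ↔ ∃ m, G.Adj a m ∧ G.Adj b m ∧ c m ≠ c a :=
  GoodOn.sq h a b trivial trivial hne hab

/-- Rule R. -/
theorem ruleR (h : Good G c) {x y z : V} (h1 : G.Adj x y) (h2 : G.Adj y z)
    (h3 : ¬ clo G x z) (h4 : c x ≠ c y) : c z = c y := by
  by_contra h5
  have h6 : c x = c z := by
    cases hx : c x <;> cases hy : c y <;> cases hz : c z <;> simp_all
  have hne : x ≠ z := fun e => h3 (Or.inl e)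
  exact h3 (Or.inr ((h.sq hne h6).2 ⟨y, h1, h2.symm, h4.symm⟩))

/-- Rule S. -/
theorem ruleS (h : Good G c) {v u w z : V} (hcv : c v ≠ c u)
    (hw : core G v u w) (hz : core G v u z) (hwz : ¬ clo G w z) : c w ≠ c z := by
  intro e
  have hne : w ≠ z := fun e => hwz (Or.inl e)
  apply hwz
  refine Or.inr ((h.sq hne e).2 ?_)
  by_cases h1 : c w = c v
  · have h2 : u ≠ w := fun e2 => hcv (by rw [← h1, e2])
    have h3 : u ≠ z := fun e2 => hcv (by rw [← h1, e, e2])
    exact ⟨u, (adj_of_clo hw.2 h2).symm, (adj_of_clo hz.2 h3).symm, fun e3 => hcv (by rw [← h1, e3])⟩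
  · have h2 : v ≠ w := fun e2 => h1 (by rw [e2])
    have h3 : v ≠ z := fun e2 => h1 (by rw [e, e2])
    exact ⟨v, (adj_of_clo hw.1 h2).symm, (adj_of_clo hz.1 h3).symm, fun e3 => h1 e3.symm⟩

theorem bool_eq_of {a b d : Bool} (h1 : a ≠ b) (h2 : d ≠ b) : a = d := by
  cases a <;> cases b <;> cases d <;> simp_all

/-- A universal vertex of the core on the side of `u` is a twin of `u`. -/
theorem twin_of_universal [Fintype V] [DecidableEq V] [DecidableRel G.Adj] (h : Good G c) {v u w : V}
    (hvu : G.Adj v u) (hcv : c v ≠ c u)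
    (hmax : ∀ x, G.Adj v x → c x ≠ c v →
      (Finset.univ.filter fun b => G.Adj x b ∧ c b ≠ c x).card ≤
      (Finset.univ.filter fun b => G.Adj u b ∧ c b ≠ c u).card)
    (hw : core G v u w) (huniv : ∀ x, core G v u x → clo G w x) (hcw : c w = c u) :
    twin G u w := by
  have hwv : w ≠ v := fun e => hcv (by rw [← e, hcw])
  have hvw : G.Adj v w := adj_of_clo hw.1 hwv.symm
  have hcwv : c w ≠ c v := fun e => hcv (by rw [← e, hcw])
  have hsub : (Finset.univ.filter fun b => G.Adj u b ∧ c b ≠ c u) ⊆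
      (Finset.univ.filter fun b => G.Adj w b ∧ c b ≠ c w) := by
    intro b hb
    rw [Finset.mem_filter] at hb ⊢
    obtain ⟨_, hb1, hb2⟩ := hb
    have hcb : c b = c v := bool_eq_of hb2 hcv
    have hbC : core G v u b := by
      refine ⟨?_, Or.inr hb1⟩
      by_cases e : v = b
      · exact Or.inl e
      · exact Or.inr ((h.sq e hcb.symm).2 ⟨u, hvu, hb1.symm, hcv.symm⟩)
    have h1 : w ≠ b := fun e => hb2 (by rw [← e, hcw])
    refine ⟨Finset.mem_univ _, adj_of_clo (huniv b hbC) h1, ?_⟩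
    rw [hcw]; exact hb2
  have heq := Finset.eq_of_subset_of_card_le hsub (hmax w hvw hcwv)
  have hN : ∀ b, (G.Adj u b ∧ c b ≠ c u) ↔ (G.Adj w b ∧ c b ≠ c w) := by
    intro b
    have := Finset.ext_iff.1 heq b
    simpa using this
  intro x
  by_cases hx : c x = c u
  · constructor
    · rintro (e | h1)
      · subst e
        by_cases e2 : u = w
        · exact Or.inl e2
        · exact Or.inr ((h.sq e2 hx.symm).2 ⟨v, hvu.symm, hvw.symm, hcv⟩)
      · obtain ⟨m, hm1, hm2, hm3⟩ := (h.sq h1.ne (hcw.trans hx.symm)).1 h1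
        have h2 := (hN m).2 ⟨hm1, hm3⟩
        by_cases e2 : u = x
        · exact Or.inl e2
        · exact Or.inr ((h.sq e2 hx.symm).2 ⟨m, h2.1, hm2, h2.2⟩)
    · rintro (e | h1)
      · subst e
        by_cases e2 : w = u
        · exact Or.inl e2
        · exact Or.inr ((h.sq e2 hcw).2 ⟨v, hvw.symm, hvu.symm, hcwv.symm⟩)
      · obtain ⟨m, hm1, hm2, hm3⟩ := (h.sq h1.ne hx.symm).1 h1
        have h2 := (hN m).1 ⟨hm1, hm3⟩
        by_cases e2 : w = x
        · exact Or.inl e2
        · exact Or.inr ((h.sq e2 (hcw.trans hx.symm)).2 ⟨m, h2.1, hm2, h2.2⟩)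
  · have e1 : w ≠ x := fun e => hx (by rw [← e, hcw])
    have e2 : u ≠ x := fun e => hx (by rw [← e])
    constructor
    · intro h1
      exact Or.inr ((hN x).2 ⟨adj_of_clo h1 e1, by rw [hcw]; exact hx⟩).1
    · intro h1
      exact Or.inr ((hN x).1 ⟨adj_of_clo h1 e2, hx⟩).1

/-- The graph of the non-adjacent pairs in the core. -/
def coGraph (G : SimpleGraph V) (v u : V) : SimpleGraph V where
  Adj a b := core G v u a ∧ core G v u b ∧ ¬ clo G a b
  symm := ⟨fun _ _ h => ⟨h.2.1, h.1, fun e => h.2.2 (clo_symm e)⟩⟩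
  loopless := ⟨fun _ h => h.2.2 (Or.inl rfl)⟩

/-- Three components would give an induced cycle of length six. -/
theorem no_three (h : Good G c) {v u : V} (hcv : c v ≠ c u) (w : Fin 3 → V)
    (hw : ∀ i, ∃ x, (coGraph G v u).Adj (w i) x)
    (hsep : ∀ i j, i ≠ j → ¬ (coGraph G v u).Reachable (w i) (w j)) : False := by
  have key : ∀ i, ∃ a b, (coGraph G v u).Adj a b ∧ c a = c u ∧ c b = c v ∧
      (coGraph G v u).Reachable (w i) a ∧ (coGraph G v u).Reachable (w i) b := by
    intro i
    obtain ⟨x, hx⟩ := hw i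
    have h1 : c (w i) ≠ c x := ruleS h hcv hx.1 hx.2.1 hx.2.2
    by_cases h2 : c (w i) = c u
    · refine ⟨w i, x, hx, h2, ?_, Reachable.refl _, hx.reachable⟩
      exact bool_eq_of (b := c u) (fun e => h1 (h2.trans e.symm)) hcv
    · refine ⟨x, w i, hx.symm, ?_, ?_, hx.reachable, Reachable.refl _⟩
      · exact bool_eq_of (b := c (w i)) h1.symm fun e => h2 e.symm
      · exact bool_eq_of h2 hcv
  choose a b hab hca hcb hra hrb using key
  have hadj : ∀ i j, i ≠ j → G.Adj (a i) (b j) := by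
    intro i j hij
    by_contra hn
    have hne : a i ≠ b j := fun e => hcv (by rw [← hca i, ← hcb j, e])
    have : (coGraph G v u).Adj (a i) (b j) :=
      ⟨(hab i).1, (hab j).2.1, fun e => hn (adj_of_clo e hne)⟩
    exact hsep i j hij ((hra i).trans (this.reachable.trans (hrb j).symm))
  have hnadj : ∀ i, ¬ G.Adj (a i) (b i) := fun i e => (hab i).2.2 (Or.inr e)
  have hcab : ∀ i j, c (a i) ≠ c (b j) := fun i j e => hcv (by rw [← hca i, ← hcb j, e])
  have hcaa : ∀ i j, c (a i) = c (a j) := fun i j => by rw [hca, hca]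
  have hcbb : ∀ i j, c (b i) = c (b j) := fun i j => by rw [hcb, hcb]
  have hAB : ∀ i j, (cut G c).Adj (a i) (b j) ↔ i ≠ j := by
    intro i j
    rw [cut_adj]
    constructor
    · rintro ⟨h1, _⟩ e
      subst e
      exact hnadj i h1
    · intro hij
      exact ⟨hadj i j hij, hcab i j⟩
  have hBA : ∀ i j, (cut G c).Adj (b i) (a j) ↔ i ≠ j := by
    intro i j
    rw [SimpleGraph.adj_comm, hAB]
    exact ne_comm
  have hAA : ∀ i j, ¬ (cut G c).Adj (a i) (a j) := fun i j e => e.2 (hcaa i j)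
  have hBB : ∀ i j, ¬ (cut G c).Adj (b i) (b j) := fun i j e => e.2 (hcbb i j)
  have hane : ∀ i j, i ≠ j → a i ≠ a j := fun i j hij e =>
    hsep i j hij ((hra i).trans (e ▸ (hra j).symm))
  have hbne : ∀ i j, i ≠ j → b i ≠ b j := fun i j hij e =>
    hsep i j hij ((hrb i).trans (e ▸ (hrb j).symm))
  let g : Fin 6 → V := ![a 0, b 1, a 2, b 0, a 1, b 2]
  have hrel : ∀ i j : Fin 6, (cut G c).Adj (g i) (g j) ↔ (cycleGraph 6).Adj i j := by
    intro i j
    rw [cycleGraph_adj]
    fin_cases i <;> fin_cases j <;> simp [g, hAB, hBA, hAA, hBB] <;> decide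
  have hinj : Function.Injective g := by
    intro i j hij
    by_contra hne
    have h1 : ∀ k, (cycleGraph 6).Adj i k ↔ (cycleGraph 6).Adj j k := fun k => by
      rw [← hrel, ← hrel, hij]
    exact hne (cycle_nb_inj (by norm_num) h1)
  exact GoodOn.ch h 6 le_rfl ⟨⟨g, hinj⟩, fun {i j} => hrel i j⟩ fun _ => trivial

theorem exists_two (h : Good G c) {v u : V} (hcv : c v ≠ c u) :
    ∃ p q : V, ∀ w x, (coGraph G v u).Adj w x →
      (coGraph G v u).Reachable p w ∨ (coGraph G v u).Reachable q w := by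
  by_contra hcon
  push Not at hcon
  obtain ⟨w1, x1, h1, _, _⟩ := hcon v v
  obtain ⟨w2, x2, h2, h12, _⟩ := hcon w1 w1
  obtain ⟨w3, x3, h3, h13, h23⟩ := hcon w1 w2
  refine no_three h hcv ![w1, w2, w3] ?_ ?_
  · intro i
    fin_cases i
    · exact ⟨x1, h1⟩
    · exact ⟨x2, h2⟩
    · exact ⟨x3, h3⟩
  · intro i j hij
    fin_cases i <;> fin_cases j <;> simp at hij ⊢
    · exact h12
    · exact h13
    · exact fun e => h12 e.symm
    · exact h23
    · exact fun e => h13 e.symm
    · exact fun e => h23 e.symm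

end Pool.Agent.CBSq
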