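import Pool.Agent.CBSq.Twin

/-!
# The closure of a partial colouring
-/

set_option autoImplicit false

namespace Pool.Agent.CBSq

open SimpleGraph

variable {V : Type*} {G : SimpleGraph V} {c : V → Bool}

/-- Iterating an operator which increases a bounded measure unless it stands still. -/
theorem iter_fixed {σ : Type*} (F : σ → σ) (μ : σ → ℕ) (n : ℕ) (hμ : ∀ s, μ s ≤ n)
    (h : ∀ s, F s ≠ s → μ s < μ (F s)) (s : σ) : F (F^[n] s) = F^[n] s := by
  have key : ∀ k, F (F^[k] s) = F^[k] s ∨ k + 1 ≤ μ (F^[k + 1] s) := by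
    intro k
    induction k with
    | zero =>
      by_cases h0 : F s = s
      · exact Or.inl h0
      · right
        have := h s h0
        simp only [zero_add, Function.iterate_one]
        omega
    | succ k ih =>
      by_cases h0 : F (F^[k + 1] s) = F^[k + 1] s
      · exact Or.inl h0
      · right
        have h1 := h _ h0
        rw [Function.iterate_succ_apply' F (k + 1)]
        rcases ih with h2 | h2
        · exfalso
          apply h0
          rw [Function.iterate_succ_apply', h2, h2]
        · omega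
  rcases key n with h1 | h1
  · exact h1
  · have := hμ (F^[n + 1] s)
    omega

/-- The colour as a number. -/
def col (b : Bool) : ℕ := if b then 1 else 2

theorem col_ne_zero (b : Bool) : col b ≠ 0 := by cases b <;> decide

theorem col_inj {a b : Bool} (h : col a = col b) : a = b := by
  cases a <;> cases b <;> simp_all [col]

theorem col_cases (b : Bool) : col b = 1 ∨ col b = 2 := by cases b <;> simp [col]

/-- The colour `k` is forced at `z`. -/
def Forced (G : SimpleGraph V) (v u : V) (P : V → ℕ) (z : V) (k : ℕ) : Prop :=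
  (∃ y x, G.Adj z y ∧ G.Adj y x ∧ ¬ clo G z x ∧ P y = k ∧ P x ≠ 0 ∧ P x ≠ k) ∨
  (∃ w, core G v u w ∧ core G v u z ∧ ¬ clo G z w ∧ P w ≠ 0 ∧ P w ≠ k)

open Classical in
/-- One round. -/
noncomputable def stepP (G : SimpleGraph V) (v u : V) (P : V → ℕ) : V → ℕ := fun z =>
  if P z ≠ 0 then P z else if Forced G v u P z 1 then 1 else if Forced G v u P z 2 then 2 else 0

/-- `P` is a part of the colouring `c`. -/
def Part (P : V → ℕ) (c : V → Bool) : Prop := ∀ z, P z = 0 ∨ P z = col (c z)

theorem forced_col (h : Good G c) {v u : V} (hcv : c v ≠ c u) {P : V → ℕ} (hP : Part P c)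
    {z : V} {k : ℕ} (hk : k = 1 ∨ k = 2) (hf : Forced G v u P z k) : k = col (c z) := by
  rcases hf with ⟨y, x, h1, h2, h3, h4, h5, h6⟩ | ⟨w, h1, h2, h3, h4, h5⟩
  · have hy : P y = col (c y) := by
      rcases hP y with h7 | h7
      · omega
      · exact h7
    have hx : P x = col (c x) := (hP x).resolve_left h5
    have hxy : c x ≠ c y := fun e => h6 (by rw [hx, e, ← hy, h4])
    have := ruleR h h2.symm h1.symm (fun e => h3 (clo_symm e)) hxy
    rw [this, ← hy, h4]
  · have hw : P w = col (c w) := (hP w).resolve_left h4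
    have hwz : c w ≠ c z := ruleS h hcv h1 h2 fun e => h3 (clo_symm e)
    rw [hw] at h5
    rcases hk with rfl | rfl <;> cases hcw : c w <;> cases hcz : c z <;> simp_all [col]

theorem stepP_part (h : Good G c) {v u : V} (hcv : c v ≠ c u) {P : V → ℕ} (hP : Part P c) :
    Part (stepP G v u P) c := by
  intro z
  unfold stepP
  split_ifs with h1 h2 h3
  · exact hP z
  · exact Or.inr (forced_col h hcv hP (Or.inl rfl) h2)
  · exact Or.inr (forced_col h hcv hP (Or.inr rfl) h3)
  · exact Or.inl rfl

theorem iter_part (h : Good G c) {v u : V} (hcv : c v ≠ c u) {P : V → ℕ} (hP : Part P c) (n : ℕ) :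
    Part ((stepP G v u)^[n] P) c := by
  induction n with
  | zero => exact hP
  | succ n ih => rw [Function.iterate_succ_apply']; exact stepP_part h hcv ih

theorem stepP_ext (G : SimpleGraph V) (v u : V) (P : V → ℕ) {z : V} (hz : P z ≠ 0) :
    stepP G v u P z = P z := by
  unfold stepP
  rw [if_pos hz]

theorem iter_ext (G : SimpleGraph V) (v u : V) (P : V → ℕ) (n : ℕ) {z : V} (hz : P z ≠ 0) :
    (stepP G v u)^[n] P z = P z := by
  induction n with
  | zero => rfl
  | succ n ih =>
    rw [Function.iterate_succ_apply', stepP_ext G v u _ (by rw [ih]; exact hz), ih]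

open Classical in
theorem stepP_fixed [Fintype V] (G : SimpleGraph V) (v u : V) (P : V → ℕ) :
    stepP G v u ((stepP G v u)^[Fintype.card V] P) = (stepP G v u)^[Fintype.card V] P := by
  refine iter_fixed (stepP G v u) (fun Q => (Finset.univ.filter fun z => Q z ≠ 0).card) _
    (fun Q => (Finset.card_filter_le _ _).trans le_rfl) ?_ P
  intro Q hQ
  apply Finset.card_lt_card
  obtain ⟨z, hz⟩ : ∃ z, stepP G v u Q z ≠ Q z := by
    by_contra hcon
    push Not at hcon
    exact hQ (funext hcon)
  have hz0 : Q z = 0 := by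
    by_contra h0
    exact hz (stepP_ext G v u Q h0)
  rw [Finset.ssubset_iff_of_subset]
  · refine ⟨z, ?_, ?_⟩
    · rw [Finset.mem_filter]
      exact ⟨Finset.mem_univ _, fun e => hz (by rw [e, hz0])⟩
    · rw [Finset.mem_filter]
      exact fun e => e.2 hz0
  · intro x hx
    rw [Finset.mem_filter] at hx ⊢
    exact ⟨hx.1, by rw [stepP_ext G v u Q hx.2]; exact hx.2⟩

/-- In a closed partial colouring no uncoloured vertex is forced. -/
theorem not_forced {v u : V} {P : V → ℕ} (hfix : stepP G v u P = P) {z : V} (hz : P z = 0) {k : ℕ}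
    (hk : k = 1 ∨ k = 2) : ¬ Forced G v u P z k := by
  intro hf
  have h1 := congrFun hfix z
  unfold stepP at h1
  rw [if_neg (by simpa using hz), hz] at h1
  split_ifs at h1 with h2 h3
  rcases hk with rfl | rfl
  · exact h2 hf
  · exact h3 hf

theorem complete_core {v u : V} {P : V → ℕ} (hfix : stepP G v u P = P) (hP : Part P c)
    (huniv : ∀ w, core G v u w → (∀ x, core G v u x → clo G w x) → P w ≠ 0)
    {p q : V} (hp : P p ≠ 0) (hq : P q ≠ 0)
    (hpq : ∀ w x, (coGraph G v u).Adj w x →
      (coGraph G v u).Reachable p w ∨ (coGraph G v u).Reachable q w) :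
    ∀ w, core G v u w → P w ≠ 0 := by
  have hwalk : ∀ a b, (coGraph G v u).Reachable a b → P a ≠ 0 → P b ≠ 0 := by
    intro a b hab
    obtain ⟨W⟩ := hab
    induction W with
    | nil => exact fun h => h
    | @cons x y z hxy _ ih =>
      intro hx
      apply ih
      intro hy
      have hx' : P x = col (c x) := (hP x).resolve_left hx
      rcases col_cases (c x) with e | e
      · exact not_forced hfix hy (Or.inr rfl) (Or.inr ⟨x, hxy.1, hxy.2.1,
          fun e => hxy.2.2 (clo_symm e), hx, by omega⟩)
      · exact not_forced hfix hy (Or.inl rfl) (Or.inr ⟨x, hxy.1, hxy.2.1,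
          fun e => hxy.2.2 (clo_symm e), hx, by omega⟩)
  intro w hw
  by_cases h1 : ∀ x, core G v u x → clo G w x
  · exact huniv w hw h1
  · push Not at h1
    obtain ⟨x, hx, hwx⟩ := h1
    rcases hpq w x ⟨hw, hx, hwx⟩ with h2 | h2
    · exact hwalk _ _ h2 hp
    · exact hwalk _ _ h2 hq

theorem complete (h : Good G c) {v u : V} (hvu : G.Adj v u) (hcv : c v ≠ c u) {P : V → ℕ}
    (hfix : stepP G v u P = P) (hP : Part P c) (hcore : ∀ w, core G v u w → P w ≠ 0) :
    ∀ z, G.Reachable v z → P z ≠ 0 := by
  have hv : P v ≠ 0 := hcore v ⟨clo_self v, Or.inr hvu.symm⟩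
  have hu : P u ≠ 0 := hcore u ⟨Or.inr hvu, clo_self u⟩
  have hcol : ∀ x y, P x ≠ 0 → P y ≠ 0 → c x ≠ c y → P x ≠ P y := by
    intro x y hx hy hxy e
    rw [(hP x).resolve_left hx, (hP y).resolve_left hy] at e
    exact hxy (col_inj e)
  have hcc : ∀ x, P x ≠ 0 → P x = 1 ∨ P x = 2 := fun x hx => by
    rw [(hP x).resolve_left hx]; exact col_cases _
  have h0 : ∀ z, clo G v z → P z ≠ 0 := by
    intro z hz
    by_cases h1 : clo G u z
    · exact hcore z ⟨hz, h1⟩
    · have hne : v ≠ z := fun e => h1 (by rw [← e]; exact Or.inr hvu.symm)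
      intro hz0
      exact not_forced hfix hz0 (hcc v hv) (Or.inl ⟨v, u, (adj_of_clo hz hne).symm, hvu,
        fun e => h1 (clo_symm e), rfl, hu, (hcol v u hv hu hcv).symm⟩)
  have hstep : ∀ x y, (cut G c).Adj x y → (∀ z, clo G x z → P z ≠ 0) →
      ∀ z, clo G y z → P z ≠ 0 := by
    intro x y hxy hx z hz
    by_cases h1 : clo G x z
    · exact hx z h1
    · have hne : y ≠ z := fun e => h1 (by rw [← e]; exact Or.inr hxy.1)
      have hPx := hx x (clo_self x)
      have hPy := hx y (Or.inr hxy.1)
      intro hz0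
      exact not_forced hfix hz0 (hcc y hPy) (Or.inl ⟨y, x, (adj_of_clo hz hne).symm, hxy.1.symm,
        fun e => h1 (clo_symm e), rfl, hPx, hcol x y hPx hPy hxy.2⟩)
  have hcutreach : ∀ a b, G.Reachable a b → (cut G c).Reachable a b := by
    intro a b hab
    obtain ⟨W⟩ := hab
    induction W with
    | nil => exact Reachable.refl _
    | @cons x y z hxy _ ih =>
      refine Reachable.trans ?_ ih
      by_cases h1 : c x = c y
      · obtain ⟨m, h2, h3, h4⟩ := (h.sq hxy.ne h1).1 hxy
        have e1 : (cut G c).Adj x m := ⟨h2, h4.symm⟩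
        have e2 : (cut G c).Adj m y := ⟨h3.symm, fun e => h4 (e.trans h1.symm)⟩
        exact e1.reachable.trans e2.reachable
      · exact Adj.reachable (show (cut G c).Adj x y from ⟨hxy, h1⟩)
  intro z hz
  obtain ⟨W⟩ := hcutreach v z hz
  have : ∀ a b (W : (cut G c).Walk a b), (∀ z, clo G a z → P z ≠ 0) → ∀ z, clo G b z → P z ≠ 0 := by
    intro a b W
    induction W with
    | nil => exact fun h => h
    | cons hxy _ ih => exact fun hx => ih (hstep _ _ hxy hx)
  exact this v z W h0 z (clo_self z)

open Classical in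
/-- The seed. -/
noncomputable def seed (G : SimpleGraph V) (v u p q : V) (a b t : ℕ) (z : V) : ℕ :=
  if z = v then 1 else if z = u then 2 else if z = p then a else if z = q then b else
  if core G v u z ∧ ∀ w, core G v u w → clo G z w then
    (if twin G u z then t else 1) else 0

/-- **Every good colouring is found (on the component of `v`) from one of the seeds.** -/
theorem exists_seed [Fintype V] (h : Good G c) {v x : V} (hvx : G.Adj v x) :
    ∃ u p q : V, ∃ a b t : ℕ, G.Adj v u ∧ (a = 1 ∨ a = 2) ∧ (b = 1 ∨ b = 2) ∧ (t = 1 ∨ t = 2) ∧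
      GoodOn G (fun z => decide
        ((stepP G v u)^[Fintype.card V] (seed G v u p q a b t) z = 1)) (Comp G v) := by
  classical
  -- the colour of `v` is `true`
  set c1 : V → Bool := fun z => decide (c z = c v) with hc1
  have h1 : Good G c1 := by
    refine GoodOn.recolour h fun a b => ?_
    simp only [hc1, decide_eq_decide]
    constructor
    · intro e; rw [e]
    · intro e
      cases ha : c a <;> cases hb : c b <;> cases hv : c v <;> simp_all
  have hv1 : c1 v = true := by simp [hc1]
  -- a neighbour of maximal degree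
  have hex : ∃ y, G.Adj v y ∧ c1 y ≠ c1 v := by
    by_cases e : c1 x = c1 v
    · obtain ⟨m, h2, _, h4⟩ := (h1.sq hvx.ne e.symm).1 hvx
      exact ⟨m, h2, h4⟩
    · exact ⟨x, hvx, e⟩
  set S : Finset V := Finset.univ.filter fun y => G.Adj v y ∧ c1 y ≠ c1 v with hS
  obtain ⟨u, huS, humax⟩ := Finset.exists_max_image S
    (fun y => (Finset.univ.filter fun b => G.Adj y b ∧ c1 b ≠ c1 y).card)
    (by obtain ⟨y, hy⟩ := hex; exact ⟨y, by simpa [hS] using hy⟩)
  have hu : G.Adj v u ∧ c1 u ≠ c1 v := by simpa [hS] using huS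
  obtain ⟨d, hd, hdv, hdu, hdt, hdT⟩ := normalise h1 (Ne.symm hu.2)
  have hcv : d v ≠ d u := by rw [hdv, hdu]; exact Ne.symm hu.2
  have hdv1 : d v = true := by rw [hdv, hv1]
  have hdu1 : d u = false := by
    cases e : d u
    · rfl
    · exact absurd (hdv1.trans e.symm) hcv
  obtain ⟨p, q, hpq⟩ := exists_two hd hcv
  obtain ⟨t, ht, htT⟩ : ∃ t : ℕ, (t = 1 ∨ t = 2) ∧ ∀ w, twin G u w → w ≠ v → w ≠ u →
      col (d w) = t := by
    rcases hdT with h2 | h2
    · refine ⟨2, Or.inr rfl, fun w hw hwv _ => ?_⟩
      rw [h2 w hw hwv, ← hdu, hdu1]; rfl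
    · refine ⟨1, Or.inl rfl, fun w hw _ hwu => ?_⟩
      rw [h2 w hw hwu, hv1]; rfl
  have hseed : Part (seed G v u p q (col (d p)) (col (d q)) t) d := by
    intro z
    unfold seed
    split_ifs with e1 e2 e3 e4 e5 e6
    · right; rw [e1, hdv1]; rfl
    · right; rw [e2, hdu1]; rfl
    · right; rw [e3]
    · right; rw [e4]
    · right; exact (htT z e6 e1 e2).symm
    · right
      have h3 : c1 z ≠ c1 u := fun e => e6 (twin_of_universal h1 hu.1 (Ne.symm hu.2)
        (fun y hy1 hy2 => humax y (by simpa [hS] using ⟨hy1, hy2⟩)) e5.1 e5.2 e)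
      have h4 : d z = true := by
        rw [hdt z e6, ← hv1]
        exact bool_eq_of h3 (Ne.symm hu.2)
      rw [h4]; rfl
    · exact Or.inl rfl
  refine ⟨u, p, q, col (d p), col (d q), t, hu.1, col_cases _, col_cases _, ht, ?_⟩
  set n := Fintype.card V
  set P := (stepP G v u)^[n] (seed G v u p q (col (d p)) (col (d q)) t) with hP
  have hPpart : Part P d := iter_part hd hcv hseed n
  have hfix : stepP G v u P = P := stepP_fixed G v u _
  have hext : ∀ z, seed G v u p q (col (d p)) (col (d q)) t z ≠ 0 → P z ≠ 0 := fun z hz => by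
    rw [hP, iter_ext G v u _ n hz]; exact hz
  have hp : P p ≠ 0 := by
    apply hext
    unfold seed
    split_ifs <;> first | exact col_ne_zero _ | norm_num
    all_goals exact absurd rfl ‹_›
  have hq : P q ≠ 0 := by
    apply hext
    unfold seed
    split_ifs <;> first | exact col_ne_zero _ | norm_num
    all_goals exact absurd rfl ‹_›
  have hcore := complete_core hfix hPpart (fun w hw hw2 => by
    apply hext
    unfold seed
    split_ifs <;> first | exact col_ne_zero _ | norm_num | skip
    · rcases ht with rfl | rfl <;> norm_num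
    · exact absurd (And.intro hw hw2) (by assumption)) hp hq hpq
  have hall := complete hd hu.1 hcv hfix hPpart hcore
  refine GoodOn.congr (c := d) (fun a b ha hab => ha.trans hab.reachable)
    (GoodOn.mono hd fun _ _ => trivial) ?_
  intro z hz
  have h5 : P z = col (d z) := (hPpart z).resolve_left (hall z hz)
  change decide (P z = 1) = d z
  rw [h5]
  cases d z <;> rfl

end Pool.Agent.CBSq
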