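import Pool.Agent.CBSq.Spec
import Pool.Agent.PF.ToTM

/-!
# A Turing machine
-/

set_option autoImplicit false

namespace Pool.Agent.CBSq

open SimpleGraph Pool.Agent.PF Turing

/-- A graph on `Fin n` as a word: its adjacency matrix, a list of `n` rows of `n` Booleans, in the
prefix code `[] ↦ 0`, `a :: l ↦ 1 (code of a) (code of l)`, `false ↦ 0`, `true ↦ 100`. -/
noncomputable def codeGraph {n : ℕ} (G : SimpleGraph (Fin n)) : List Bool := (enc (matOf G)).code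

theorem time_bound (C c s : ℕ) (hs : 1 ≤ s) :
    C * (s + (s + 2) ^ c + 1) ≤ (s + 1) ^ (C + (2 * c + 3)) := by
  have h0 : 2 ≤ s + 1 := by omega
  have h1 : C ≤ (s + 1) ^ C := Nat.lt_two_pow_self.le.trans (Nat.pow_le_pow_left h0 C)
  have h2 : (s + 2) ^ c ≤ (s + 1) ^ (2 * c) := by
    rw [pow_mul]
    exact Nat.pow_le_pow_left (by nlinarith) c
  have h3 : s + (s + 2) ^ c + 1 ≤ (s + 1) ^ (2 * c + 3) := by
    have h4 : s + 1 ≤ (s + 1) ^ (2 * c + 1) := by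
      calc s + 1 = (s + 1) ^ 1 := (pow_one _).symm
        _ ≤ (s + 1) ^ (2 * c + 1) := Nat.pow_le_pow_right (by omega) (by omega)
    have h5 : (s + 1) ^ (2 * c) ≤ (s + 1) ^ (2 * c + 1) :=
      Nat.pow_le_pow_right (by omega) (by omega)
    have h6 : (s + 1) ^ (2 * c + 3) = (s + 1) ^ (2 * c + 1) * ((s + 1) * (s + 1)) := by ring
    have h7 : 2 ≤ (s + 1) * (s + 1) := by nlinarith
    calc s + (s + 2) ^ c + 1 = (s + 1) + (s + 2) ^ c := by ring
      _ ≤ (s + 1) ^ (2 * c + 1) + (s + 1) ^ (2 * c + 1) := Nat.add_le_add h4 (h2.trans h5)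
      _ = (s + 1) ^ (2 * c + 1) * 2 := by ring
      _ ≤ (s + 1) ^ (2 * c + 3) := by rw [h6]; exact Nat.mul_le_mul_left _ h7
  rw [pow_add]
  exact Nat.mul_le_mul h1 h3

open Classical in
/-- From a polynomial time function on matrices to a Turing machine. -/
theorem machine_of_pf {A : Mat → Bool} (hA : PF A)
    (Q : ∀ n : ℕ, SimpleGraph (Fin n) → Prop)
    (hQ : ∀ (n : ℕ) (G : SimpleGraph (Fin n)), A (matOf G) = true ↔ Q n G) :
    ∃ (M : FinTM2) (e₀ : M.Γ M.k₀ ≃ Bool) (e₁ : M.Γ M.k₁ ≃ Bool) (k : ℕ),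
      ∀ (n : ℕ) (G : SimpleGraph (Fin n)),
        Nonempty (TM2OutputsInTime M ((codeGraph G).map e₀.symm)
          (some ([decide (Q n G)].map e₁.symm)) (((codeGraph G).length + 1) ^ k)) := by
  obtain ⟨F, ⟨c, hF⟩, hF'⟩ := hA
  obtain ⟨tm, e₀, e₁, C, h⟩ := decider_of_runsBy
    (α := Σ n, SimpleGraph (Fin n)) (fun x => enc (matOf x.2)) (fun x => A (matOf x.2)) hF
    (fun x => hF' _)
  refine ⟨tm, e₀, e₁, C + (2 * c + 3), fun n G => ?_⟩
  obtain ⟨h1⟩ := h ⟨n, G⟩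
  have h2 : decide (Q n G) = A (matOf G) := by
    rw [Bool.eq_iff_iff, decide_eq_true_eq, hQ]
  rw [h2]
  refine ⟨⟨h1.1, h1.2.trans ?_⟩⟩
  unfold codeGraph
  rw [V.code_length]
  exact time_bound _ _ _ (V.size_pos _)

end Pool.Agent.CBSq
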