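import Pool.Agent.CBSq.Basic

/-!
# Finding a long induced cycle
-/

set_option autoImplicit false

namespace Pool.Agent.CBSq

open SimpleGraph

variable {V : Type*}

/-- A shortest path as a function on numbers. -/
theorem exists_shortest (R : SimpleGraph V) {a b : V} (h : R.Reachable a b) :
    ∃ (d : ℕ) (q : ℕ → V), q 0 = a ∧ q d = b ∧ (∀ i < d, R.Adj (q i) (q (i + 1))) ∧
      (∀ i j, i < j → j ≤ d → q i ≠ q j) ∧
      (∀ i j, i < j → j ≤ d → R.Adj (q i) (q j) → j = i + 1) := by
  classical
  have hex : ∃ d : ℕ, ∃ q : ℕ → V, q 0 = a ∧ q d = b ∧ ∀ i < d, R.Adj (q i) (q (i + 1)) := by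
    obtain ⟨p⟩ := h
    exact ⟨p.length, p.getVert, p.getVert_zero, p.getVert_length, fun i hi => p.adj_getVert_succ hi⟩
  set d := Nat.find hex with hd
  obtain ⟨q, hq0, hqd, hq⟩ := Nat.find_spec hex
  have hmin : ∀ d' < d, ¬ ∃ q : ℕ → V, q 0 = a ∧ q d' = b ∧ ∀ i < d', R.Adj (q i) (q (i + 1)) :=
    fun d' hd' => Nat.find_min hex hd'
  rw [← hd] at hqd hq
  refine ⟨d, q, hq0, hqd, hq, ?_, ?_⟩
  · intro i j hij hj e
    refine hmin (d - (j - i)) (by omega) ⟨fun k => if k ≤ i then q k else q (k + (j - i)), ?_, ?_, ?_⟩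
    · simp [hq0]
    · dsimp only
      split_ifs with h1
      · have : j = d := by omega
        have h2 : d - (j - i) = i := by omega
        rw [h2, e, this, hqd]
      · rw [show d - (j - i) + (j - i) = d by omega, hqd]
    · intro k hk
      dsimp only
      split_ifs with h1 h2 h2
      · exact hq k (by omega)
      · have h3 : k = i := by omega
        subst h3
        rw [e, show k + 1 + (j - k) = j + 1 by omega]
        exact hq j (by omega)
      · omega
      · rw [show k + 1 + (j - i) = k + (j - i) + 1 by omega]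
        exact hq _ (by omega)
  · intro i j hij hj e
    by_contra hne
    refine hmin (d - (j - i - 1)) (by omega)
      ⟨fun k => if k ≤ i then q k else q (k + (j - i - 1)), ?_, ?_, ?_⟩
    · simp [hq0]
    · dsimp only
      split_ifs with h1
      · omega
      · rw [show d - (j - i - 1) + (j - i - 1) = d by omega, hqd]
    · intro k hk
      dsimp only
      split_ifs with h1 h2 h2
      · exact hq k (by omega)
      · have h3 : k = i := by omega
        subst h3
        rw [show k + 1 + (j - k - 1) = j by omega]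
        exact e
      · omega
      · rw [show k + 1 + (j - i - 1) = k + (j - i - 1) + 1 by omega]
        exact hq _ (by omega)

/-- The graph without the neighbours of `x₂` and `x₃`, but with `x₁` and `x₄`. -/
def res (H : SimpleGraph V) (x₁ x₂ x₃ x₄ : V) : SimpleGraph V where
  Adj a b := H.Adj a b ∧ (a = x₁ ∨ a = x₄ ∨ (¬ H.Adj a x₂ ∧ ¬ H.Adj a x₃)) ∧
    (b = x₁ ∨ b = x₄ ∨ (¬ H.Adj b x₂ ∧ ¬ H.Adj b x₃))
  symm := ⟨fun _ _ h => ⟨h.1.symm, h.2.2, h.2.1⟩⟩
  loopless := ⟨fun _ h => h.1.ne rfl⟩

/-- There is an induced cycle of length at least `6` in `K`. -/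
def HasLong (H : SimpleGraph V) (K : V → Prop) : Prop :=
  ∃ x₁ x₂ x₃ x₄, K x₁ ∧ H.Adj x₁ x₂ ∧ H.Adj x₂ x₃ ∧ H.Adj x₃ x₄ ∧ ¬ H.Adj x₁ x₄ ∧
    (res H x₁ x₂ x₃ x₄).Reachable x₄ x₁

theorem hasLong_of_cycle {H : SimpleGraph V} {K : V → Prop} {n : ℕ} (hn : 6 ≤ n)
    (f : cycleGraph n ↪g H) (hf : ∀ i, K (f i)) : HasLong H K := by
  have h3 : 3 ≤ n := by omega
  have hadj : ∀ i j : Fin n, H.Adj (f i) (f j) ↔ _ := fun i j =>
    (f.map_rel_iff' (a := i) (b := j)).trans (cycle_adj_iff h3 i j)
  let x : ℕ → V := fun i => if h : i < n then f ⟨i, h⟩ else f ⟨0, by omega⟩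
  have hx : ∀ i (h : i < n), x i = f ⟨i, h⟩ := fun i h => dif_pos h
  have hA : ∀ i j, i < n → j < n → (H.Adj (x i) (x j) ↔ (j = i + 1 ∨ i = j + 1 ∨
      (i = 0 ∧ j + 1 = n) ∨ (j = 0 ∧ i + 1 = n))) := fun i j hi hj => by
    rw [hx i hi, hx j hj, hadj]
  refine ⟨x 0, x 1, x 2, x 3, ?_, ?_, ?_, ?_, ?_, ?_⟩
  · rw [hx 0 (by omega)]; exact hf _
  · rw [hA 0 1 (by omega) (by omega)]; omega
  · rw [hA 1 2 (by omega) (by omega)]; omega
  · rw [hA 2 3 (by omega) (by omega)]; omega
  · rw [hA 0 3 (by omega) (by omega)]; omega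
  · have hW : ∀ i, 3 ≤ i → i < n → (x i = x 0 ∨ x i = x 3 ∨
        (¬ H.Adj (x i) (x 1) ∧ ¬ H.Adj (x i) (x 2))) := by
      intro i h1 h2
      by_cases h4 : i = 3
      · subst h4; exact Or.inr (Or.inl rfl)
      · right; right
        rw [hA i 1 h2 (by omega), hA i 2 h2 (by omega)]
        constructor <;> omega
    have key : ∀ i, i + 3 < n → (res H (x 0) (x 1) (x 2) (x 3)).Reachable (x 3) (x (i + 3)) := by
      intro i
      induction i with
      | zero => intro _; exact Reachable.refl _
      | succ i ih =>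
        intro hi
        refine (ih (by omega)).trans (Adj.reachable ?_)
        refine ⟨?_, hW _ (by omega) (by omega), hW _ (by omega) (by omega)⟩
        rw [hA _ _ (by omega) (by omega)]; omega
    have h5 := key (n - 4) (by omega)
    rw [show n - 4 + 3 = n - 1 by omega] at h5
    refine h5.trans (Adj.reachable ⟨?_, hW _ (by omega) (by omega), Or.inl rfl⟩)
    rw [hA _ _ (by omega) (by omega)]; omega

theorem cycle_of_hasLong {H : SimpleGraph V} {c : V → Bool} (hc : ∀ a b, H.Adj a b → c a ≠ c b)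
    {K : V → Prop} (hK : ∀ a b, K a → H.Adj a b → K b) (h : HasLong H K) :
    ∃ n, 6 ≤ n ∧ ∃ f : cycleGraph n ↪g H, ∀ i, K (f i) := by
  obtain ⟨x₁, x₂, x₃, x₄, hK1, h12, h23, h34, h14, hR⟩ := h
  obtain ⟨d, q, hq0, hqd, hq, hinj, hind⟩ := exists_shortest _ hR
  have hc14 : c x₁ ≠ c x₄ := by
    have := hc _ _ h12
    have := hc _ _ h23
    have := hc _ _ h34
    cases e1 : c x₁ <;> cases e2 : c x₂ <;> cases e3 : c x₃ <;> cases e4 : c x₄ <;> simp_all
  have hd3 : 3 ≤ d := by
    by_contra hcon
    have hd : d = 0 ∨ d = 1 ∨ d = 2 := by omega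
    rcases hd with rfl | rfl | rfl
    · rw [hq0] at hqd
      exact hc14 (by rw [hqd])
    · have h1 := (hq 0 (by omega)).1
      rw [hq0, zero_add, hqd] at h1
      exact h14 h1.symm
    · have h1 := hc _ _ (hq 0 (by omega)).1
      have h2 := hc _ _ (hq 1 (by omega)).1
      rw [hq0] at h1
      rw [hqd] at h2
      exact hc14 (bool_ne_ne h2.symm h1)
  have hqH : ∀ i < d, H.Adj (q i) (q (i + 1)) := fun i hi => (hq i hi).1
  have hW : ∀ i ≤ d, q i = x₁ ∨ q i = x₄ ∨ (¬ H.Adj (q i) x₂ ∧ ¬ H.Adj (q i) x₃) := by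
    intro i hi
    by_cases h1 : i = d
    · rw [h1, hqd]; exact Or.inl rfl
    · exact (hq i (by omega)).2.1
  have hint : ∀ i, 0 < i → i < d → ¬ H.Adj (q i) x₂ ∧ ¬ H.Adj (q i) x₃ := by
    intro i h1 h2
    rcases hW i h2.le with h3 | h3 | h3
    · exact absurd (h3.trans hqd.symm) (hinj i d h2 le_rfl)
    · exact absurd (hq0.trans h3.symm) (hinj 0 i h1 h2.le)
    · exact h3
  have hqq : ∀ i j, i ≤ d → j ≤ d → (H.Adj (q i) (q j) ↔ (j = i + 1 ∨ i = j + 1)) := by
    intro i j hi hj
    constructor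
    · intro h1
      rcases lt_trichotomy i j with h2 | h2 | h2
      · exact Or.inl (hind i j h2 hj ⟨h1, hW i hi, hW j hj⟩)
      · subst h2; exact absurd rfl h1.ne
      · exact Or.inr (hind j i h2 hi ⟨h1.symm, hW j hj, hW i hi⟩)
    · rintro (rfl | rfl)
      · exact hqH i (by omega)
      · exact (hqH j (by omega)).symm
  have hx2 : ∀ i ≤ d, (H.Adj x₂ (q i) ↔ i = d) := by
    intro i hi
    constructor
    · intro h1
      by_contra h2
      by_cases h3 : i = 0
      · subst h3
        rw [hq0] at h1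
        exact absurd (hc _ _ h1) (by
          have := hc _ _ h23
          have := hc _ _ h34
          cases e2 : c x₂ <;> cases e3 : c x₃ <;> cases e4 : c x₄ <;> simp_all)
      · exact (hint i (by omega) (by omega)).1 h1.symm
    · rintro rfl
      rw [hqd]; exact h12.symm
  have hx3 : ∀ i ≤ d, (H.Adj x₃ (q i) ↔ i = 0) := by
    intro i hi
    constructor
    · intro h1
      by_contra h2
      by_cases h3 : i = d
      · subst h3
        rw [hqd] at h1
        exact absurd (hc _ _ h1) (by
          have := hc _ _ h12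
          have := hc _ _ h23
          cases e2 : c x₂ <;> cases e3 : c x₃ <;> cases e4 : c x₁ <;> simp_all)
      · exact (hint i (by omega) (by omega)).2 h1.symm
    · rintro rfl
      rw [hq0]; exact h34
  let g : Fin (d + 3) → V := fun i =>
    if i.val = 0 then x₂ else if i.val = 1 then x₃ else q (i.val - 2)
  have hrel : ∀ i j : Fin (d + 3), H.Adj (g i) (g j) ↔ (cycleGraph (d + 3)).Adj i j := by
    intro i j
    rw [cycle_adj_iff (by omega)]
    have hi := i.2
    have hj := j.2
    simp only [g]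
    by_cases i0 : i.val = 0
    · rw [if_pos i0]
      by_cases j0 : j.val = 0
      · rw [if_pos j0]
        refine iff_of_false (fun h => h.ne rfl) (by omega)
      · rw [if_neg j0]
        by_cases j1 : j.val = 1
        · rw [if_pos j1]
          exact iff_of_true h23 (by omega)
        · rw [if_neg j1, hx2 _ (by omega)]
          omega
    · rw [if_neg i0]
      by_cases i1 : i.val = 1
      · rw [if_pos i1]
        by_cases j0 : j.val = 0
        · rw [if_pos j0]
          exact iff_of_true h23.symm (by omega)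
        · rw [if_neg j0]
          by_cases j1 : j.val = 1
          · rw [if_pos j1]
            exact iff_of_false (fun h => h.ne rfl) (by omega)
          · rw [if_neg j1, hx3 _ (by omega)]
            omega
      · rw [if_neg i1]
        by_cases j0 : j.val = 0
        · rw [if_pos j0, SimpleGraph.adj_comm, hx2 _ (by omega)]
          omega
        · rw [if_neg j0]
          by_cases j1 : j.val = 1
          · rw [if_pos j1, SimpleGraph.adj_comm, hx3 _ (by omega)]
            omega
          · rw [if_neg j1, hqq _ _ (by omega) (by omega)]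
            omega
  have hinj2 : Function.Injective g := by
    intro i j hij
    apply cycle_nb_inj (n := d + 3) (by omega)
    intro k
    rw [← hrel, ← hrel, hij]
  refine ⟨d + 3, by omega, ⟨⟨g, hinj2⟩, fun {i j} => hrel i j⟩, ?_⟩
  have hK2 : K x₂ := hK _ _ hK1 h12
  have hK3 : K x₃ := hK _ _ hK2 h23
  have hK4 : K x₄ := hK _ _ hK3 h34
  have hKq : ∀ i ≤ d, K (q i) := by
    intro i
    induction i with
    | zero => intro _; rw [hq0]; exact hK4
    | succ i ih => intro hi; exact hK _ _ (ih (by omega)) (hqH i (by omega))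
  intro i
  change K (g i)
  simp only [g]
  have hi := i.2
  split_ifs
  · exact hK2
  · exact hK3
  · exact hKq _ (by omega)

end Pool.Agent.CBSq
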