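import Pool.Agent.CBSq.Alg
import Pool.Agent.CBSq.Closure
import Pool.Agent.CBSq.Long

/-!
# The algorithm is correct
-/

set_option autoImplicit false

namespace Pool.Agent.CBSq

open SimpleGraph Pool.Agent.PF

open Classical in
/-- The adjacency matrix. -/
noncomputable def matOf {n : ℕ} (G : SimpleGraph (Fin n)) : Mat :=
  tab n fun i => tab n fun j => decide (∃ (hi : i < n) (hj : j < n), G.Adj ⟨i, hi⟩ ⟨j, hj⟩)

theorem getD_tab {γ : Type} (n : ℕ) (f : ℕ → γ) (d : γ) {i : ℕ} (hi : i < n) :
    (tab n f).getD i d = f i := by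
  unfold tab
  rw [List.getD_eq_getElem?_getD, List.getElem?_map, List.getElem?_range hi]
  rfl

theorem length_tab {γ : Type} (n : ℕ) (f : ℕ → γ) : (tab n f).length = n := by
  simp [tab]

variable {n : ℕ}

@[simp] theorem length_matOf (G : SimpleGraph (Fin n)) : (matOf G).length = n := length_tab _ _

open Classical in
theorem ad_matOf (G : SimpleGraph (Fin n)) (i j : Fin n) :
    ad (matOf G) i j = true ↔ G.Adj i j := by
  unfold ad matOf
  rw [getD_tab _ _ _ i.2, getD_tab _ _ _ j.2, decide_eq_true_eq]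
  exact ⟨fun ⟨_, _, h⟩ => h, fun h => ⟨i.2, j.2, h⟩⟩

open Classical in
theorem matOf_ext (G : SimpleGraph (Fin n)) (f : ℕ → ℕ → Bool)
    (h : ∀ i j : Fin n, f i j = true ↔ G.Adj i j) :
    (tab n fun i => tab n fun j => f i j) = matOf G := by
  unfold matOf tab
  refine List.map_congr_left fun i hi => List.map_congr_left fun j hj => ?_
  rw [List.mem_range] at hi hj
  rw [Bool.eq_iff_iff, decide_eq_true_eq, h ⟨i, hi⟩ ⟨j, hj⟩]
  exact ⟨fun h => ⟨hi, hj, h⟩, fun ⟨_, _, h⟩ => h⟩

theorem any_range {f : ℕ → Bool} : (List.range n).any f = true ↔ ∃ i : Fin n, f i = true := by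
  rw [List.any_eq_true]
  constructor
  · rintro ⟨x, hx, h⟩
    exact ⟨⟨x, List.mem_range.1 hx⟩, h⟩
  · rintro ⟨i, h⟩
    exact ⟨i, List.mem_range.2 i.2, h⟩

theorem all_range {f : ℕ → Bool} : (List.range n).all f = true ↔ ∀ i : Fin n, f i = true := by
  rw [List.all_eq_true]
  constructor
  · intro h i
    exact h i (List.mem_range.2 i.2)
  · intro h x hx
    exact h ⟨x, List.mem_range.1 hx⟩

theorem cl_matOf (G : SimpleGraph (Fin n)) (i j : Fin n) :
    cl (matOf G) i j = true ↔ clo G i j := by
  unfold cl clo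
  rw [Bool.or_eq_true, decide_eq_true_eq, ad_matOf, Fin.ext_iff]

theorem co_matOf (G : SimpleGraph (Fin n)) (v u w : Fin n) :
    co (matOf G) v u w = true ↔ core G v u w := by
  unfold co core
  rw [Bool.and_eq_true, cl_matOf, cl_matOf]

theorem beq_iff {a b : Bool} : beq a b = true ↔ a = b := by
  cases a <;> cases b <;> simp [beq]

/-- A list of colours as a function. -/
def fn (P : List ℕ) : Fin n → ℕ := fun i => P.getD i 0

theorem forcedB_iff (G : SimpleGraph (Fin n)) (v u : Fin n) (P : List ℕ) (z : Fin n) (k : ℕ) :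
    forcedB (matOf G) v u P z k = true ↔ Forced G v u (fn P) z k := by
  unfold forcedB Forced
  rw [Bool.or_eq_true, length_matOf, any_range, any_range]
  refine or_congr (exists_congr fun y => ?_) (exists_congr fun w => ?_)
  · rw [any_range]
    refine exists_congr fun x => ?_
    simp only [Bool.and_eq_true, Bool.not_eq_true', decide_eq_true_eq, ad_matOf, fn,
      ← Bool.not_eq_true, cl_matOf, and_assoc]
  · simp only [Bool.and_eq_true, Bool.not_eq_true', decide_eq_true_eq, co_matOf, fn,
      ← Bool.not_eq_true, cl_matOf, and_assoc]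

theorem fn_tab (f : ℕ → ℕ) (i : Fin n) : fn (tab n f) i = f i := getD_tab _ _ _ i.2

theorem fn_stepB (G : SimpleGraph (Fin n)) (v u : Fin n) (P : List ℕ)
    (hP : ∀ i : Fin n, fn P i ≤ 2) :
    (fn (stepB (matOf G) v u P) : Fin n → ℕ) = stepP G v u (fn P) := by
  classical
  funext z
  unfold stepB stepP
  rw [length_matOf, fn_tab]
  have h1 := hP z
  have h2 : P.getD (z : ℕ) 0 = fn P z := rfl
  rw [h2]
  simp only [forcedB_iff]
  have h3 : fn P z = 0 ∨ fn P z = 1 ∨ fn P z = 2 := by omega
  rcases h3 with h3 | h3 | h3 <;> simp [h3]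

theorem stepP_le (G : SimpleGraph (Fin n)) (v u : Fin n) (P : Fin n → ℕ) (hP : ∀ i, P i ≤ 2)
    (i : Fin n) : stepP G v u P i ≤ 2 := by
  unfold stepP
  split_ifs
  · exact hP i
  · norm_num
  · norm_num
  · norm_num

theorem fn_closB (G : SimpleGraph (Fin n)) (v u : Fin n) (P : List ℕ)
    (hP : ∀ i : Fin n, fn P i ≤ 2) :
    (fn (closB (matOf G) v u P) : Fin n → ℕ) = (stepP G v u)^[n] (fn P) := by
  unfold closB
  rw [length_matOf]
  have key : ∀ k, (fn ((stepB (matOf G) v u)^[k] P) : Fin n → ℕ) = (stepP G v u)^[k] (fn P) ∧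
      ∀ i : Fin n, (stepP G v u)^[k] (fn P) i ≤ 2 := by
    intro k
    induction k with
    | zero => exact ⟨rfl, hP⟩
    | succ k ih =>
      rw [Function.iterate_succ_apply', Function.iterate_succ_apply']
      refine ⟨?_, stepP_le G v u _ ih.2⟩
      rw [fn_stepB, ih.1]
      intro i
      rw [ih.1]
      exact ih.2 i
  exact (key n).1

theorem fn_seedB (G : SimpleGraph (Fin n)) (v u p q : Fin n) (a b t : ℕ) :
    (fn (seedB (matOf G) v u p q a b t) : Fin n → ℕ) = seed G v u p q a b t := by
  classical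
  funext z
  unfold seedB seed
  rw [length_matOf, fn_tab]
  have h1 : (co (matOf G) v u z && (List.range n).all fun w => !(co (matOf G) v u w) ||
      cl (matOf G) z w) = true ↔ (core G v u z ∧ ∀ w, core G v u w → clo G z w) := by
    rw [Bool.and_eq_true, co_matOf, all_range]
    refine and_congr_right fun _ => forall_congr' fun w => ?_
    rw [Bool.or_eq_true, Bool.not_eq_true', ← Bool.not_eq_true, co_matOf, cl_matOf]
    tauto
  have h2 : ((List.range n).all fun x => beq (cl (matOf G) z x) (cl (matOf G) u x)) = true ↔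
      twin G u z := by
    rw [all_range]
    unfold twin
    refine forall_congr' fun x => ?_
    rw [beq_iff, Bool.eq_iff_iff, cl_matOf, cl_matOf]
  simp only [h1, h2, Fin.ext_iff]
  split_ifs <;> rfl

theorem seed_le (G : SimpleGraph (Fin n)) (v u p q : Fin n) {a b t : ℕ} (ha : a ≤ 2) (hb : b ≤ 2)
    (ht : t ≤ 2) (i : Fin n) : seed G v u p q a b t i ≤ 2 := by
  unfold seed
  split_ifs <;> omega

/-- A list of Booleans as a set. -/
def fnB (R : List Bool) : Fin n → Prop := fun i => R.getD i false = true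

theorem fnB_tab (f : ℕ → Bool) (i : Fin n) : fnB (tab n f) i ↔ f i = true := by
  unfold fnB
  rw [getD_tab _ _ _ i.2]

theorem fnB_grow (G : SimpleGraph (Fin n)) (R : List Bool) (z : Fin n) :
    fnB (grow (matOf G) R) z ↔ fnB R z ∨ ∃ y : Fin n, fnB R y ∧ G.Adj y z := by
  unfold grow
  rw [length_matOf, fnB_tab, Bool.or_eq_true, any_range]
  refine or_congr Iff.rfl (exists_congr fun y => ?_)
  rw [Bool.and_eq_true, ad_matOf]
  rfl

theorem reachB_iff (G : SimpleGraph (Fin n)) (s z : Fin n) :
    fnB (reachB (matOf G) s) z ↔ G.Reachable s z := by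
  unfold reachB
  rw [length_matOf]
  set R0 : List Bool := tab n fun z => decide (z = (s : ℕ)) with hR0
  have h0 : ∀ z : Fin n, fnB R0 z ↔ z = s := fun z => by
    rw [hR0, fnB_tab, decide_eq_true_eq, Fin.ext_iff]
  have hsound : ∀ k, ∀ z : Fin n, fnB ((grow (matOf G))^[k] R0) z → G.Reachable s z := by
    intro k
    induction k with
    | zero => intro z hz; rw [(h0 z).1 hz]
    | succ k ih =>
      intro z hz
      rw [Function.iterate_succ_apply', fnB_grow] at hz
      rcases hz with hz | ⟨y, hy, hyz⟩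
      · exact ih z hz
      · exact (ih y hy).trans hyz.reachable
  have hmono : ∀ k m, k ≤ m → ∀ z : Fin n, fnB ((grow (matOf G))^[k] R0) z →
      fnB ((grow (matOf G))^[m] R0) z := by
    intro k m hkm
    induction m, hkm using Nat.le_induction with
    | base => exact fun z h => h
    | succ m _ ih =>
      intro z hz
      rw [Function.iterate_succ_apply', fnB_grow]
      exact Or.inl (ih z hz)
  have hcomp : ∀ k, ∀ (z : Fin n) (p : G.Walk z s), p.length = k →
      fnB ((grow (matOf G))^[k] R0) z := by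
    intro k
    induction k with
    | zero =>
      intro z p hp
      exact (h0 z).2 (Walk.eq_of_length_eq_zero hp)
    | succ k ih =>
      intro z p hp
      cases p with
      | nil => simp at hp
      | cons h q =>
        rw [Walk.length_cons] at hp
        rw [Function.iterate_succ_apply', fnB_grow]
        exact Or.inr ⟨_, ih _ q (by omega), h.symm⟩
  constructor
  · exact hsound n z
  · intro h
    obtain ⟨p, hp⟩ := h.symm.exists_isPath
    have h1 := hp.length_lt
    rw [Fintype.card_fin] at h1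
    exact hmono p.length n h1.le z (hcomp _ z p rfl)

/-- The colouring given by a list. -/
def colB (P : List ℕ) : Fin n → Bool := fun z => side P z

theorem cutB_matOf (G : SimpleGraph (Fin n)) (P : List ℕ) :
    cutB (matOf G) P = matOf (cut G (colB P)) := by
  unfold cutB
  rw [length_matOf]
  refine matOf_ext _ _ fun i j => ?_
  rw [Bool.and_eq_true, ad_matOf, cut_adj, Bool.not_eq_true', ← Bool.not_eq_true, beq_iff]
  rfl

theorem okB_iff (H : SimpleGraph (Fin n)) (x₁ x₂ x₃ x₄ z : Fin n) :
    okB (matOf H) x₁ x₂ x₃ x₄ z = true ↔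
      (z = x₁ ∨ z = x₄ ∨ (¬ H.Adj z x₂ ∧ ¬ H.Adj z x₃)) := by
  unfold okB
  rw [Bool.or_eq_true, Bool.or_eq_true, Bool.and_eq_true, decide_eq_true_eq, decide_eq_true_eq,
    Bool.not_eq_true', Bool.not_eq_true', ← Bool.not_eq_true, ← Bool.not_eq_true, ad_matOf,
    ad_matOf, Fin.ext_iff, Fin.ext_iff]

theorem resB_matOf (H : SimpleGraph (Fin n)) (x₁ x₂ x₃ x₄ : Fin n) :
    resB (matOf H) x₁ x₂ x₃ x₄ = matOf (res H x₁ x₂ x₃ x₄) := by
  unfold resB
  rw [length_matOf]
  refine matOf_ext _ _ fun i j => ?_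
  rw [Bool.and_eq_true, Bool.and_eq_true, ad_matOf, okB_iff, okB_iff]
  rfl

theorem longB_iff (H : SimpleGraph (Fin n)) (K : List Bool) :
    longB (matOf H) K = true ↔ HasLong H (fnB K) := by
  unfold longB HasLong
  rw [length_matOf, any_range]
  refine exists_congr fun x₁ => ?_
  rw [any_range]
  refine exists_congr fun x₂ => ?_
  rw [any_range]
  refine exists_congr fun x₃ => ?_
  rw [any_range]
  refine exists_congr fun x₄ => ?_
  rw [resB_matOf]
  simp only [Bool.and_eq_true, Bool.not_eq_true', ← Bool.not_eq_true, ad_matOf, and_assoc]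
  have := reachB_iff (res H x₁ x₂ x₃ x₄) x₄ x₁
  unfold fnB at this ⊢
  rw [this]

theorem sqB_iff (G : SimpleGraph (Fin n)) (P : List ℕ) (K : List Bool) :
    sqB (matOf G) P K = true ↔ ∀ a b : Fin n, fnB K a → fnB K b → a ≠ b → colB P a = colB P b →
      (G.Adj a b ↔ ∃ m, G.Adj a m ∧ G.Adj b m ∧ colB P m ≠ colB P a) := by
  unfold sqB
  rw [length_matOf, all_range]
  refine forall_congr' fun a => ?_
  rw [all_range]
  refine forall_congr' fun b => ?_
  have h1 : ((List.range n).any fun m => ad (matOf G) a m && ad (matOf G) b m &&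
      !(beq (side P m) (side P a))) = true ↔
      ∃ m, G.Adj a m ∧ G.Adj b m ∧ colB P m ≠ colB P a := by
    rw [any_range]
    refine exists_congr fun m => ?_
    simp only [Bool.and_eq_true, ad_matOf, Bool.not_eq_true', ← Bool.not_eq_true, beq_iff,
      and_assoc]
    rfl
  rw [Bool.or_eq_true, Bool.not_eq_true', ← Bool.not_eq_true, Bool.and_eq_true, Bool.and_eq_true,
    Bool.and_eq_true, decide_eq_true_eq, beq_iff, beq_iff, Bool.eq_iff_iff (a := ad _ _ _), h1,
    ad_matOf]
  constructor
  · rintro (h | h) ha hb hne hc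
    · exact absurd ⟨⟨⟨ha, hb⟩, fun e => hne (Fin.ext e)⟩, hc⟩ h
    · exact h
  · intro h
    rw [or_iff_not_imp_left, not_not]
    rintro ⟨⟨⟨ha, hb⟩, hne⟩, hc⟩
    exact h ha hb (fun e => hne (by rw [e])) hc

theorem goodB_iff (G : SimpleGraph (Fin n)) (P : List ℕ) (v : Fin n) :
    goodB (matOf G) P (reachB (matOf G) v) = true ↔ GoodOn G (colB P) (Comp G v) := by
  unfold goodB
  rw [Bool.and_eq_true, sqB_iff, cutB_matOf, Bool.not_eq_true', ← Bool.not_eq_true, longB_iff]
  have hK : (fnB (reachB (matOf G) v) : Fin n → Prop) = Comp G v := by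
    funext z
    exact propext (reachB_iff G v z)
  rw [hK]
  constructor
  · rintro ⟨h1, h2⟩
    exact ⟨h1, fun m hm f hf => h2 (hasLong_of_cycle hm f hf)⟩
  · rintro ⟨h1, h2⟩
    refine ⟨h1, fun h3 => ?_⟩
    obtain ⟨m, hm, f, hf⟩ := cycle_of_hasLong (H := cut G (colB P)) (c := colB P)
      (fun a b h => h.2) (fun a b ha hab => Reachable.trans ha hab.1.reachable) h3
    exact h2 m hm f hf

theorem algB_iff (G : SimpleGraph (Fin n)) :
    algB (matOf G) = true ↔ ∃ H : SimpleGraph (Fin n), IsChordalBipartite H ∧ power H 2 = G := by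
  rw [root_iff]
  unfold algB
  rw [length_matOf, all_range]
  constructor
  · intro h
    refine good_of_forall fun v => ?_
    have h1 := h v
    rw [Bool.or_eq_true, Bool.not_eq_true', ← Bool.not_eq_true] at h1
    rcases h1 with h1 | h1
    · -- an isolated vertex
      have hiso : ∀ x, ¬ G.Adj v x := fun x hx => h1 (any_range.2 ⟨x, (ad_matOf G v x).2 hx⟩)
      have hcomp : ∀ a, Comp G v a → a = v := by
        intro a ha
        obtain ⟨p⟩ := ha
        cases p with
        | nil => rfl
        | cons h _ => exact absurd h (hiso _)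
      refine ⟨fun _ => true, ⟨fun a b ha hb hne _ => ?_, fun m hm f hf => ?_⟩⟩
      · exact absurd ((hcomp a ha).trans (hcomp b hb).symm) hne
      · have e1 := hcomp _ (hf ⟨0, by omega⟩)
        have e2 := hcomp _ (hf ⟨1, by omega⟩)
        have e3 := f.injective (e1.trans e2.symm)
        simp [Fin.ext_iff] at e3
    · rw [any_range] at h1
      obtain ⟨u, h1⟩ := h1
      rw [any_range] at h1
      obtain ⟨p, h1⟩ := h1
      rw [any_range] at h1
      obtain ⟨q, h1⟩ := h1
      rw [List.any_eq_true] at h1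
      obtain ⟨a, _, h1⟩ := h1
      rw [List.any_eq_true] at h1
      obtain ⟨b, _, h1⟩ := h1
      rw [List.any_eq_true] at h1
      obtain ⟨t, _, h1⟩ := h1
      exact ⟨_, (goodB_iff G _ v).1 h1⟩
  · rintro ⟨c, hc⟩ v
    rw [Bool.or_eq_true, Bool.not_eq_true', ← Bool.not_eq_true]
    by_cases h0 : ((List.range n).any fun x => ad (matOf G) v x) = true
    · right
      rw [any_range] at h0
      obtain ⟨x, hx⟩ := h0
      rw [ad_matOf] at hx
      obtain ⟨u, p, q, a, b, t, _, ha, hb, ht, hg⟩ := exists_seed hc hx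
      refine any_range.2 ⟨u, any_range.2 ⟨p, any_range.2 ⟨q, List.any_eq_true.2 ⟨a, ?_,
        List.any_eq_true.2 ⟨b, ?_, List.any_eq_true.2 ⟨t, ?_, ?_⟩⟩⟩⟩⟩⟩
      · rcases ha with rfl | rfl <;> simp
      · rcases hb with rfl | rfl <;> simp
      · rcases ht with rfl | rfl <;> simp
      · rw [goodB_iff]
        have hle : ∀ i : Fin n, fn (seedB (matOf G) v u p q a b t) i ≤ 2 := fun i => by
          rw [fn_seedB]
          exact seed_le G v u p q (by omega) (by omega) (by omega) i
        have h2 : (colB (closB (matOf G) v u (seedB (matOf G) v u p q a b t)) : Fin n → Bool) =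
            fun z => decide ((stepP G v u)^[Fintype.card (Fin n)] (seed G v u p q a b t) z = 1) := by
          funext z
          rw [Fintype.card_fin, ← fn_seedB, ← fn_closB G v u _ hle]
          rfl
        rw [h2]
        exact hg
    · exact Or.inl h0

end Pool.Agent.CBSq
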