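import Pool.Agent.CBSq.Cand

/-!
# Normalising the colours of the true twins of `u`
-/

set_option autoImplicit false

namespace Pool.Agent.CBSq

open SimpleGraph

variable {V : Type*} {G : SimpleGraph V} {c : V → Bool}

theorem twin_self (u : V) : twin G u u := fun _ => Iff.rfl

theorem twin_clo {u a b : V} (ha : twin G u a) (hb : twin G u b) : clo G a b :=
  (ha b).2 (clo_symm ((hb u).2 (clo_self u)))

theorem clo_congr {u a b : V} (ha : twin G u a) (hb : twin G u b) (x : V) :
    clo G a x ↔ clo G b x := (ha x).trans (hb x).symm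

open Classical in
/-- All the twins of `u`, except `v`, may be taken on the side of `u`, or all but `u` on the side
of `v`. -/
theorem normalise (h : Good G c) {v u : V} (hcv : c v ≠ c u) :
    ∃ d : V → Bool, Good G d ∧ d v = c v ∧ d u = c u ∧ (∀ w, ¬ twin G u w → d w = c w) ∧
      ((∀ w, twin G u w → w ≠ v → d w = c u) ∨ (∀ w, twin G u w → w ≠ u → d w = c v)) := by
  by_cases hcase : ∀ w, twin G u w → w ≠ v → c w = c u
  · exact ⟨c, h, rfl, rfl, fun _ _ => rfl, Or.inl hcase⟩
  push Not at hcase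
  obtain ⟨w0, hw0, _, hcw0⟩ := hcase
  have hcw0' : c w0 = c v := bool_eq_of hcw0 hcv
  have hw0u : w0 ≠ u := fun e => hcw0 (by rw [e])
  set d : V → Bool := fun w => if twin G u w ∧ w ≠ u then c v else c w with hd
  set φ : V → V := fun w => if twin G u w ∧ w ≠ u ∧ c w = c u then w0 else w with hφ
  have hdu : d u = c u := by simp [hd]
  have hφ1 : ∀ w, (twin G u w ∧ w ≠ u ∧ c w = c u) → φ w = w0 := fun w hw => if_pos hw
  have hφ2 : ∀ w, ¬ (twin G u w ∧ w ≠ u ∧ c w = c u) → φ w = w := fun w hw => if_neg hw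
  have hdφ : ∀ w, d w = c (φ w) := by
    intro w
    by_cases h1 : twin G u w ∧ w ≠ u ∧ c w = c u
    · rw [hφ1 w h1, hcw0']
      exact if_pos ⟨h1.1, h1.2.1⟩
    · rw [hφ2 w h1]
      by_cases h2 : twin G u w ∧ w ≠ u
      · have h3 : c w ≠ c u := fun e => h1 ⟨h2.1, h2.2, e⟩
        have h4 : d w = c v := if_pos h2
        rw [h4]
        exact bool_eq_of (b := c u) hcv h3
      · exact if_neg h2
  have hcloφ : ∀ a x, clo G (φ a) x ↔ clo G a x := by
    intro a x
    by_cases h1 : twin G u a ∧ a ≠ u ∧ c a = c u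
    · rw [hφ1 a h1]
      exact clo_congr hw0 h1.1 x
    · rw [hφ2 a h1]
  have hcloφφ : ∀ a b, clo G (φ a) (φ b) ↔ clo G a b := fun a b => by
    rw [hcloφ, clo_comm, hcloφ, clo_comm]
  have hcut : ∀ a b, (cut G d).Adj a b ↔ (cut G c).Adj (φ a) (φ b) := by
    intro a b
    rw [cut_adj, cut_adj, hdφ, hdφ]
    refine and_congr_left fun hne => ?_
    have h1 : φ a ≠ φ b := fun e => hne (by rw [e])
    have h2 : a ≠ b := fun e => h1 (by rw [e])
    constructor
    · intro h3
      exact adj_of_clo ((hcloφφ a b).2 (Or.inr h3)) h1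
    · intro h3
      exact adj_of_clo ((hcloφφ a b).1 (Or.inr h3)) h2
  have hφtwin : ∀ a b, φ a = φ b → a ≠ b → twin G u a ∧ twin G u b ∧ a ≠ u ∧ b ≠ u := by
    intro a b hab hne
    by_cases h1 : twin G u a ∧ a ≠ u ∧ c a = c u
    · by_cases h2 : twin G u b ∧ b ≠ u ∧ c b = c u
      · exact ⟨h1.1, h2.1, h1.2.1, h2.2.1⟩
      · rw [hφ1 a h1, hφ2 b h2] at hab
        subst hab
        exact ⟨h1.1, hw0, h1.2.1, hw0u⟩
    · by_cases h2 : twin G u b ∧ b ≠ u ∧ c b = c u
      · rw [hφ1 b h2, hφ2 a h1] at hab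
        subst hab
        exact ⟨hw0, h2.1, hw0u, h2.2.1⟩
      · rw [hφ2 a h1, hφ2 b h2] at hab
        exact absurd hab hne
  have hφu : φ u = u := hφ2 u fun e => e.2.1 rfl
  refine ⟨d, ⟨fun a b _ _ hne hab => ?_, fun n hn f _ => ?_⟩, ?_, hdu, ?_, Or.inr ?_⟩
  · have hRHS : (∃ m, G.Adj a m ∧ G.Adj b m ∧ d m ≠ d a) ↔
        ∃ m, (cut G c).Adj (φ a) (φ m) ∧ (cut G c).Adj (φ b) (φ m) := by
      refine exists_congr fun m => ?_
      rw [← hcut, ← hcut, cut_adj, cut_adj]
      constructor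
      · rintro ⟨h1, h2, h3⟩
        exact ⟨⟨h1, h3.symm⟩, h2, fun e => h3 (e.symm.trans hab.symm)⟩
      · rintro ⟨⟨h1, h3⟩, h2, _⟩
        exact ⟨h1, h2, h3.symm⟩
    rw [hRHS]
    by_cases hφab : φ a = φ b
    · obtain ⟨ha, hb, hau, hbu⟩ := hφtwin a b hφab hne
      have h1 : G.Adj a b := adj_of_clo (twin_clo ha hb) hne
      refine iff_of_true h1 ⟨u, ?_⟩
      rw [← hcut, ← hcut, cut_adj, cut_adj]
      have hda : d a = c v := if_pos ⟨ha, hau⟩
      have hdb : d b = c v := if_pos ⟨hb, hbu⟩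
      rw [hda, hdb, hdu]
      exact ⟨⟨adj_of_clo (twin_clo ha (twin_self u)) hau, hcv⟩,
        adj_of_clo (twin_clo hb (twin_self u)) hbu, hcv⟩
    · have hcab : c (φ a) = c (φ b) := by rw [← hdφ, ← hdφ, hab]
      have h1 : G.Adj a b ↔ G.Adj (φ a) (φ b) := by
        constructor
        · intro h3
          exact adj_of_clo ((hcloφφ a b).2 (Or.inr h3)) hφab
        · intro h3
          exact adj_of_clo ((hcloφφ a b).1 (Or.inr h3)) hne
      rw [h1, h.sq hφab hcab]
      constructor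
      · rintro ⟨m, h2, h3, h4⟩
        have h5 : (cut G c).Adj (φ a) m := ⟨h2, h4.symm⟩
        have h6 : (cut G c).Adj (φ b) m := ⟨h3, fun e => h4 (e.symm.trans hcab.symm)⟩
        by_cases hm : twin G u m ∧ m ≠ u ∧ c m = c u
        · refine ⟨u, ?_⟩
          rw [hφu]
          have key : ∀ x, (cut G c).Adj x m → (cut G c).Adj x u := by
            intro x hx
            have h7 : c x ≠ c u := by rw [← hm.2.2]; exact hx.2
            have h8 : x ≠ u := fun e => h7 (by rw [e])
            refine ⟨adj_of_clo (clo_symm ((hm.1 x).1 (Or.inr hx.1.symm))) h8, h7⟩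
          exact ⟨key _ h5, key _ h6⟩
        · refine ⟨m, ?_⟩
          rw [hφ2 m hm]
          exact ⟨h5, h6⟩
      · rintro ⟨m, h2, h3⟩
        exact ⟨φ m, h2.1, h3.1, h2.2.symm⟩
  · have hinj : Function.Injective fun i => φ (f i) := by
      intro i j hij
      apply cycle_nb_inj (n := n) (by omega)
      intro k
      rw [← f.map_rel_iff', ← f.map_rel_iff']
      change (cut G d).Adj (f i) (f k) ↔ (cut G d).Adj (f j) (f k)
      rw [hcut, hcut]
      dsimp only at hij
      rw [hij]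
    refine GoodOn.ch h n hn ⟨⟨fun i => φ (f i), hinj⟩, ?_⟩ fun _ => trivial
    intro i j
    change (cut G c).Adj (φ (f i)) (φ (f j)) ↔ _
    rw [← hcut]
    exact f.map_rel_iff'
  · by_cases hv : twin G u v ∧ v ≠ u
    · exact if_pos hv
    · exact if_neg hv
  · intro w hw
    exact if_neg fun e => hw e.1
  · intro w hw hwu
    exact if_pos ⟨hw, hwu⟩

end Pool.Agent.CBSq
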